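import Pool.Agent.N737.GV.G4

set_option autoImplicit false
set_option linter.unusedSectionVars false
set_option linter.unusedVariables false

/-! # The covering theorem with a count for sieve conditions of dimension one -/

namespace Pool.Agent.N737.GV

open Finset Filter Pool.Agent.H256R2.SC Pool.Agent.Y831.RC

open Pool.Agent.H474R2.PG (Sg PR)

open scoped Classical

section
variable {r : ℕ → ℕ} {d B : ℕ} {C₁ c₂ Y₀ : ℝ} (H : MD r d B C₁ c₂ Y₀)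

include H in
/-- the second block -/
theorem blk2_g (ε : ℝ) (hε : 0 < ε) (hε4 : ε ≤ 1 / 4)
    (L e Y Z : ℝ) (hL : 1 ≤ L) (he1 : 1 ≤ e) (hY0 : 0 < Y) (hY : Y = L * Real.exp (-e) / e ^ 2)
    (hZ : Z = ε ^ 2 * L / (100 * e)) (hYZ : Y ≤ Z) (hvZ : L * Real.exp (-e) ≤ Z)
    (hlog1 : Real.log e ≤ e / 20) (hlog2 : Real.log (100 * e / ε ^ 2) ≤ ε / 4 * e)
    (hCe : 40 * C₁ ≤ e)
    (hK4 : 64 * Real.exp (2 * C₁) / (c₂ * Real.exp (-C₁) * ε) ≤ e) (hY8 : 8 ≤ Y)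
    (hYY : Y₀ ≤ Real.exp Y) (m₀ : ℕ) (hm₀ : 20 * e ≤ m₀) :
    (∑ i, gd r (emb (PQ r (Real.exp Y) (Real.exp Z)) i) ≤ 11 / 10 * e) ∧
    ∃ h, HypS (fun i => ((emb (PQ r (Real.exp Y) (Real.exp Z)) i : ℕ) : ℝ))
      (fun i => gd r (emb (PQ r (Real.exp Y) (Real.exp Z)) i))
      h (Real.exp Z) (1 / ((1 - ε) * Vg r c₂ (Real.exp Y) * e)) (L * Real.exp (-e)) ∧
        ∀ s, h s ≠ 0 → s.card ≤ m₀ := by
  have hL0 : 0 < L := by linarith only [hL]
  have he0 : 0 < e := by linarith only [he1]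
  have hC₁ := H.C0
  set y : ℝ := Real.exp Y with hy
  set z : ℝ := Real.exp Z with hz
  have hly : Real.log y = Y := Real.log_exp Y
  have hlz : Real.log z = Z := Real.log_exp Z
  have hyY : Y + 1 ≤ y := Real.add_one_le_exp Y
  have hyz : y ≤ z := Real.exp_le_exp.2 hYZ
  have hy3 : 3 ≤ y := by linarith only [hY8, hyY]
  have hy2 : 2 ≤ y := by linarith only [hY8, hyY]
  have hz1 : 1 < z := by linarith only [hy2, hyz]
  have hz0 : 0 ≤ z := by linarith only [hz1]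
  obtain ⟨hWy1, hWy2⟩ := H.Vbounds y hy3
  rw [hly] at hWy1 hWy2
  have hV0 := H.Vpos y
  set V : ℝ := Vg r c₂ y with hV
  set c : ℝ := c₂ * Real.exp (-C₁) with hc
  have hc0 : 0 < c := mul_pos H.c0 (Real.exp_pos _)
  set D : ℝ := Real.exp (2 * C₁) with hD
  have hD1 : 1 ≤ D := Real.one_le_exp (by linarith only [hC₁])
  set PP : Finset ℕ := PQ r y z with hPP
  have hmem : ∀ p ∈ PP, p.Prime ∧ y < (p : ℝ) ∧ (p : ℝ) ≤ z ∧ r p ≠ 0 := fun p hp =>
    (mem_PQ hz0).1 hp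
  have hgp : ∀ p ∈ PP, 0 < gd r p := fun p hp => by
    obtain ⟨h1, h2, h3, h4⟩ := hmem p hp
    refine lt_of_lt_of_le ?_ (gd_pos h1 h4)
    have : (0:ℝ) < p := by exact_mod_cast h1.pos
    positivity
  have hG₂ : ∑ i, gd r (emb PP i) ≤ 11 / 10 * e := by
    rw [sum_emb PP (fun p => gd r p)]
    have h1 := H.sum_le y z hy3 hyz
    rw [hly, hlz] at h1
    have h2 := p_G2 hε hε4 hL0 he1 hY0 hY hZ hlog1 (2 * C₁ * Y) (by
      rw [mul_div_assoc, div_self hY0.ne', mul_one]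
      linarith only [hCe])
    rw [mul_div_assoc, div_self hY0.ne', mul_one] at h2
    exact h1.trans h2
  refine ⟨hG₂, ?_⟩
  set v₀ : ℝ := L * Real.exp (-e) with hv₀
  have hv₀0 : 0 < v₀ := by positivity
  have hYv : v₀ = Y * e ^ 2 := by rw [hY]; field_simp
  have hyv : Y ≤ v₀ := by
    rw [hYv]
    exact q_Y hY0 he1
  have hB : ∑ s : Finset (Fin PP.card) with
      Real.log (∏ i ∈ s, ((emb PP i : ℕ) : ℝ)) < v₀,
      ∏ i ∈ s, gd r (emb PP i) ≤ D * e ^ 2 := by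
    refine (small_g PP (gd r) y v₀ (Real.log (e ^ 2) + 2 * C₁) (by linarith only [hy2])
      (fun p hp => (hmem p hp).2.1) hgp ?_).trans (le_of_eq ?_)
    · have hyv' : y ≤ Real.exp v₀ := Real.exp_le_exp.2 hyv
      have h1 := H.sum_le y (Real.exp v₀) hy3 hyv'
      rw [Real.log_exp, hly] at h1
      have h2 : v₀ / Y = e ^ 2 := by rw [hYv]; field_simp
      rw [h2] at h1
      refine le_trans ?_ h1
      apply Finset.sum_le_sum_of_subset_of_nonneg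
      · intro p hp
        rw [Finset.mem_filter] at hp
        obtain ⟨h3, h4, h5, h6⟩ := hmem p hp.1
        exact (mem_PQ (Real.exp_pos _).le).2 ⟨h3, h4, hp.2, h6⟩
      · intro p hp _
        unfold gd
        positivity
    · rw [Real.exp_add, Real.exp_log (by positivity), mul_comm]
  have hlgv : (1 - ε / 4) * e ≤ Real.log (Real.log z / v₀) := by
    rw [hlz]
    exact p_logZv hε hL0 he0 hZ hlog2
  have h1ε : 0 < 1 - ε := by linarith only [hε4]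
  exact profileT_g m₀ PP (gd r) y z v₀ ((1 - ε) * V * e) (D * e ^ 2) (11 / 10 * e) V hy2
    hz1 hv₀0 (by rw [hlz]; exact hvZ) (by positivity)
    (fun p hp => ⟨(hmem p hp).2.1, (hmem p hp).2.2.1⟩) hgp hB hG₂
    (fun v hv1 hv2 => by
      have h1 := H.rough y z (Real.exp v) hYY (Real.exp_le_exp.2 (hyv.trans hv1))
        (by rw [hz]; apply Real.exp_le_exp.2; rw [hlz] at hv2; exact hv2)
      have h2 : Asum (fun i => ((emb PP i : ℕ) : ℝ)) (fun i => gd r (emb PP i)) (Real.exp v) =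
          _ := Pool.Agent.H474R2.PG.Asum_enum' PP (gd r) (Real.exp v)
      rw [h2, Real.log_exp] at *
      have h3 : V * v = c₂ * v * Real.exp (-(Sg r y)) := by
        rw [hV]
        unfold Vg
        ring
      rw [h3]
      linarith only [h1])
    (p_A' hε hε4 hL he1 hc0 hD1 hY hV0 hWy1 hK4 _ hlgv m₀ hm₀)
    (p_BA' hε hε4 hL he1 hc0 hD1 hY hV0 hWy1 hK4)

include H in
theorem cov5g_at (ε K₀ M₀ : ℝ) (hε : 0 < ε) (hε4 : ε ≤ 1 / 8)
    (hK1 : 1000 ≤ K₀) (hK2 : 100 / ε ^ 2 ≤ K₀) (hK3 : 300 / ε ≤ K₀)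
    (hK4 : 64 * Real.exp (2 * C₁) / (c₂ * Real.exp (-C₁) * ε) ≤ K₀)
    (hK5 : 72 * Real.exp C₁ ≤ K₀) (hK6 : 40 * C₁ ≤ K₀) (hK7 : 128 * (1 + 2 * C₁) + 2 ≤ K₀)
    (A : ℕ) (hA : 2 ≤ A)
    (hM1 : 8 ≤ M₀) (hM2 : 200 / ε ≤ M₀) (hM3 : Real.exp C₁ * d ≤ M₀)
    (hM4 : Y₀ ≤ M₀) (hM5 : (A : ℝ) ≤ M₀) (hM6 : (B : ℝ) ≤ M₀) (hM7 : 9 * (d : ℝ) ≤ M₀)
    (L e : ℝ) (he1 : K₀ ≤ e) (he3 : K₀ * e ^ 3 ≤ Real.exp e) (helog : Real.log (K₀ * e) ≤ e / K₀)
    (a1 : M₀ ≤ L) (a2 : 1 ≤ Real.log L) (a4 : Real.log L * M₀ ≤ L)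
    (heu : e ≤ (1 - ε) * Real.log L)
    (b1 : M₀ * Real.log L ≤ L * Real.exp (-e) / e ^ 2)
    {α : Type} (κ : Type) [DecidableEq α] [Fintype κ] [DecidableEq κ] [Nonempty κ]
    (hκ : (Fintype.card κ : ℝ) ≤ (1 / 2 - 3 * ε) * (e * L * Vg r c₂ (L ^ A)))
    (hit : ℕ → α → κ → Prop)
    (huniq : ∀ p : ℕ, p.Prime → L ^ A < p →
      (p : ℝ) ≤ Real.exp (ε ^ 2 * L / (100 * e)) → r p ≠ 0 → ∀ a k l,
      hit p a k → hit p a l → k = l)
    (𝒜 : Finset α) (N Err : ℝ) (hErr : 1 ≤ Err)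
    (hcount : ∀ (T : Finset ℕ) (s : ℕ → κ), (∀ p ∈ T, p.Prime ∧ L ^ A < p ∧
        (p : ℝ) ≤ Real.exp (ε ^ 2 * L / (100 * e)) ∧ r p ≠ 0) →
      |((𝒜.filter (fun a => ∀ p ∈ T, hit p a (s p))).card : ℝ) - N * ∏ p ∈ T, gd r p| ≤ Err)
    (hAB : Err * Real.exp ((1 - ε) * L) ≤ N) :
    3 / 8 * N ≤ ((𝒜.filter (fun x => ∀ k : κ, ∃ p : ℕ, p.Prime ∧
      L ^ A < p ∧ (p : ℝ) ≤ Real.exp (ε ^ 2 * L / (100 * e)) ∧
      hit p x k)).card : ℝ) * Real.exp (e ^ 2 * Real.exp e) := by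
  have hC₁ := H.C0
  have hdR : (1:ℝ) ≤ d := by exact_mod_cast H.d1
  have he1000 : 1000 ≤ e := by linarith only [hK1, he1]
  have he0 : 0 < e := by linarith only [he1000]
  have he1' : 1 ≤ e := by linarith only [he1000]
  have hε4' : ε ≤ 1 / 4 := by linarith only [hε4]
  set l : ℝ := Real.log L with hl
  set C : ℝ := Real.exp C₁ with hCdef
  have hC : 0 < C := Real.exp_pos _
  have hC1 : 1 ≤ C := Real.one_le_exp hC₁
  have hL2 : 2 ≤ L := by linarith only [hM1, a1]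
  have hL3 : 3 ≤ L := by linarith only [hM1, a1]
  have hL0 : 0 < L := by linarith only [hL2]
  have hL1 : 1 ≤ L := by linarith only [hL2]
  have hl0 : 0 ≤ l := by linarith only [a2]
  have hel : e ≤ l := by
    have : 0 ≤ ε * l := mul_nonneg hε.le hl0
    linarith only [this, heu]
  have hM0 : 0 < M₀ := by linarith only [hM1]
  have hlL : l ≤ L := by
    have h1 : 8 * l ≤ M₀ * l := q_mul hM1 hl0
    linarith only [h1, a4, hl0]
  have hExpL : Real.exp e ≤ L := by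
    rw [← Real.exp_log hL0]
    exact Real.exp_le_exp.2 hel
  have he3' : e ^ 3 ≤ Real.exp e := q_cube hK1 he1' he3
  have he30 : 0 ≤ e ^ 3 := by positivity
  have h72 : 72 * C * e ^ 3 ≤ Real.exp e := (q_mul hK5 he30).trans he3
  have h12 : 12 * C * e ^ 3 ≤ Real.exp e := by
    have : 12 * C ≤ K₀ := by linarith only [hK5, hC]
    exact (q_mul this he30).trans he3
  set Y : ℝ := L * Real.exp (-e) / e ^ 2 with hY
  set Z : ℝ := ε ^ 2 * L / (100 * e) with hZ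
  obtain ⟨hYZ, hvZ, hZ0, hY0, _, _⟩ := p_YZ hε hε4' hL0 (hK2.trans he1) he3' hY hZ
  have hYM : M₀ ≤ Y := by
    have : M₀ * 1 ≤ M₀ * l := mul_le_mul_of_nonneg_left a2 hM0.le
    linarith only [this, b1]
  have hlog1 : Real.log e ≤ e / 20 := q_log1 hK1 he1' helog
  have hlog2 : Real.log (100 * e / ε ^ 2) ≤ ε / 4 * e := q_log2 hε hK1 he1' helog hK2 hK3
  set m₀ : ℕ := ⌈20 * e⌉₊ with hm₀
  have hm₀1 : 20 * e ≤ m₀ := Nat.le_ceil _
  have hm₀2 : (m₀ : ℝ) < 20 * e + 1 := Nat.ceil_lt_add_one (by positivity)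
  have hyY : Y + 1 ≤ Real.exp Y := Real.add_one_le_exp Y
  obtain ⟨hG₂, hprof⟩ := blk2_g H ε hε hε4' L e Y Z hL1 he1' hY0 hY hZ hYZ hvZ
    hlog1 hlog2 (hK6.trans he1) (hK4.trans he1) (hM1.trans hYM)
    (by linarith only [hM4, hYM, hyY]) m₀ hm₀1
  set w : ℝ := L ^ A with hw
  have hwL : L ≤ w := by
    calc L = L ^ 1 := (pow_one L).symm
      _ ≤ L ^ A := pow_le_pow_right₀ hL1 (by omega)
  have hw2 : 2 ≤ w := by linarith only [hwL, hL2]
  have hw3 : 3 ≤ w := by linarith only [hwL, hL3]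
  have hlw : Real.log w = A * l := by rw [hw, Real.log_pow]
  have hwy : w ≤ Real.exp Y := by
    have hw0 : 0 < w := by linarith only [hw2]
    rw [← Real.exp_log hw0, hlw]
    apply Real.exp_le_exp.2
    exact (q_mul hM5 hl0).trans b1
  set y : ℝ := Real.exp Y with hy
  set z : ℝ := Real.exp Z with hz
  have hly : Real.log y = Y := Real.log_exp Y
  have hlz : Real.log z = Z := Real.log_exp Z
  have hyz : y ≤ z := Real.exp_le_exp.2 hYZ
  have hy9 : 9 * (d : ℝ) ≤ y := by linarith only [hyY, hYM, hM7]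
  have hy0 : 0 ≤ y := by linarith only [hyY, hYM, hM1]
  have hz1 : 1 < z := by linarith only [hy9, hyz, hdR]
  have hz0 : 0 ≤ z := by linarith only [hz1]
  -- Mertens
  obtain ⟨hWw1, hWw2⟩ := H.Vbounds w hw3
  obtain ⟨hWy1, hWy2⟩ := H.Vbounds y (by linarith only [hyY, hYM, hM1])
  rw [hlw] at hWw1 hWw2
  rw [hly] at hWy1 hWy2
  have hV0 := H.Vpos y
  have hW0 := H.Vpos w
  have hW1 := H.Vone w
  set V : ℝ := Vg r c₂ y with hV
  set W : ℝ := Vg r c₂ w with hW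
  set u : ℝ := (Fintype.card κ : ℝ) with hu
  have hu0 : 0 ≤ u := Nat.cast_nonneg _
  have hu2 : u ≤ L ^ 2 / 2 := p_u2 hL2 hlL he0.le hel hW0 hW1 hε u hκ
  obtain ⟨hlam0, hlam1, hlam2⟩ := p_lam hε hε4' hL1 he1' hV0 hW0 hWy2 hY u hu0 hκ
  have huw : 2 * (u * d) ≤ w := p_uw' hL1 a2 he0.le hel hW0 hε A hA hWw2 d (by linarith only [hdR])
    (hM3.trans a1) u hu0 hκ
  set v₀ : ℝ := L * Real.exp (-e) with hv₀
  have hv₀0 : 0 < v₀ := by positivity
  -- the parameters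
  set J : ℕ := 2 * ⌈15 * e⌉₊ with hJ
  have hJe : Even J := even_two_mul _
  have hJ1 : 30 * e ≤ J := by
    have := Nat.le_ceil (15 * e)
    rw [hJ]; push_cast; linarith only [this]
  have hJ2 : (J:ℝ) ≤ 30 * e + 2 := by
    have := (Nat.ceil_lt_add_one (show 0 ≤ 15 * e by positivity)).le
    rw [hJ]; push_cast; linarith only [this]
  have hm₀J : m₀ ≤ J := by
    have : (m₀:ℝ) ≤ J := by linarith only [hm₀2, hJ1, he1000]
    exact_mod_cast this
  set b₀ : ℕ := 2 * ⌈2 * e⌉₊ with hb₀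
  have hb₀e : Even b₀ := even_two_mul _
  have hb₀1 : 4 * e ≤ b₀ := by
    have := Nat.le_ceil (2 * e)
    rw [hb₀]; push_cast; linarith only [this]
  have hb₀2 : (b₀:ℝ) ≤ 4 * e + 2 := by
    have := (Nat.ceil_lt_add_one (show 0 ≤ 2 * e by positivity)).le
    rw [hb₀]; push_cast; linarith only [this]
  set Q : ℝ := Real.exp ((1 / 2 - ε) * L) with hQ
  have hlQ : Real.log Q = (1 / 2 - ε) * L := Real.log_exp _
  have hhalf : 0 ≤ 1 / 2 - ε := by linarith only [hε4]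
  have hlQ0 : 0 ≤ (1 / 2 - ε) * L := mul_nonneg hhalf hL0.le
  have hQ1 : 1 ≤ Q := Real.one_le_exp hlQ0
  set rr : ℕ := ⌈Real.log Q / v₀⌉₊ with hrr
  have hr1 : Real.log Q / v₀ ≤ rr := Nat.le_ceil _
  have hrv : Real.log Q / v₀ ≤ Real.exp e / 2 := by
    rw [hlQ, hv₀]
    exact q_rv hε hL0
  have hexp1000 : 1001 ≤ Real.exp e := by
    have := Real.add_one_le_exp e
    linarith only [this, he1000]
  have hr2 : (rr:ℝ) ≤ Real.exp e / 2 + 1 := by
    have := (Nat.ceil_lt_add_one (show 0 ≤ Real.log Q / v₀ by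
      apply div_nonneg _ hv₀0.le
      rw [hlQ]
      exact hlQ0)).le
    linarith only [this, hrv]
  have hrm : (rr:ℝ) + 1 ≤ Real.exp e := by linarith only [hr2, hexp1000]
  have hre : (rr:ℝ) ≤ Real.exp e := by linarith only [hrm]
  have hεl : 0 ≤ ε * l := mul_nonneg hε.le hl0
  have hwM : M₀ ≤ w := a1.trans hwL
  -- the prime sets
  have hmem₁ : ∀ p ∈ PQ r w y, p.Prime ∧ w < (p : ℝ) ∧ (p : ℝ) ≤ y ∧ r p ≠ 0 := fun p hp =>
    (mem_PQ hy0).1 hp
  have hmem₂ : ∀ p ∈ PQ r y z, p.Prime ∧ y < (p : ℝ) ∧ (p : ℝ) ≤ z ∧ r p ≠ 0 := fun p hp =>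
    (mem_PQ hz0).1 hp
  have hmem : ∀ p ∈ PQ r w y ∪ PQ r y z, p.Prime ∧ w < (p : ℝ) ∧ (p : ℝ) ≤ z ∧ r p ≠ 0 := by
    intro p hp
    rw [Finset.mem_union] at hp
    rcases hp with hp | hp
    · obtain ⟨h1, h2, h3, h4⟩ := hmem₁ p hp
      exact ⟨h1, h2, h3.trans hyz, h4⟩
    · obtain ⟨h1, h2, h3, h4⟩ := hmem₂ p hp
      exact ⟨h1, lt_of_le_of_lt hwy h2, h3, h4⟩
  have hBp : ∀ p : ℕ, w < (p : ℝ) → B < p := by
    intro p hp
    have : (B:ℝ) < p := by linarith only [hM6, hwM, hp]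
    exact_mod_cast this
  have hgd : ∀ p ∈ PQ r w y ∪ PQ r y z, 1 / (p : ℝ) ≤ gd r p ∧ gd r p ≤ (d : ℝ) / (p : ℝ) := by
    intro p hp
    obtain ⟨h1, h2, h3, h4⟩ := hmem p hp
    exact ⟨gd_pos h1 h4, H.gd_le h1 (hBp p h2)⟩
  -- the first block
  obtain ⟨R, hR1, hR2⟩ := BHyp_g (PQ r w y) (gd r) d w y (1 + 2 * C₁) b₀ (Real.exp e)
    (Real.exp (-(2 * e))) κ hw2 hwy (fun p hp => ⟨(hmem₁ p hp).2.1, (hmem₁ p hp).2.2.1⟩)
    (by linarith only [hdR])
    (fun p hp => by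
      obtain ⟨h1, h2⟩ := hgd p (Finset.mem_union_left _ hp)
      refine ⟨le_trans ?_ h1, h2⟩
      positivity)
    (fun a b ha hab hlab => by
      have h1 := H.sum_le a b (by linarith only [ha, hw3]) hab
      have h2 : ∑ p ∈ (PQ r w y).filter (fun p : ℕ => a < (p : ℝ) ∧ (p : ℝ) ≤ b), gd r p ≤
          ∑ p ∈ PQ r a b, gd r p := by
        apply Finset.sum_le_sum_of_subset_of_nonneg
        · intro p hp
          rw [Finset.mem_filter] at hp
          obtain ⟨h3, h4, h5, h6⟩ := hmem₁ p hp.1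
          exact (mem_PQ (by linarith only [ha, hw2, hab])).2 ⟨h3, hp.2.1, hp.2.2, h6⟩
        · intro p _ _
          unfold gd
          positivity
      have h3 : Real.log (Real.log b / Real.log a) ≤ 1 := by
        have l1 := log_pos3 (show 3 ≤ a by linarith only [ha, hw3])
        have l2 := log_pos3 (show 3 ≤ b by linarith only [ha, hw3, hab])
        have e1 : Real.log b / Real.log a ≤ 2 := by
          rw [div_le_iff₀ (by linarith only [l1])]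
          exact hlab
        have e2 : 0 < Real.log b / Real.log a := by
          apply div_pos (by linarith only [l2]) (by linarith only [l1])
        refine (Real.log_le_log e2 e1).trans ?_
        have := Real.log_two_lt_d9
        linarith
      linarith only [h1, h2, h3])
    (by linarith only [hC₁]) hb₀e huw (Real.exp_pos e).le (Real.exp_pos _).le
    (by rw [Real.exp_le_one_iff]; linarith only [he0])
    (q_τ' (by linarith only [hK7, he1]) he0.le b₀ hb₀1)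
  have hQz : Real.log (Q / z) = (1 / 2 - ε) * L - Z := by
    rw [Real.log_div (Real.exp_pos _).ne' (Real.exp_pos _).ne', hlQ, hlz]
  have hEE : Real.exp (ε * ((1 + ε) * u * (V / W * (1 / ((1 - ε) * V * e))) / Real.log z -
      Real.log (Q / z) / Real.log z)) ≤ Real.exp (-(20 * e)) := by
    apply Real.exp_le_exp.2
    rw [hlz, hQz]
    have h1 := p_exp hε hε4' hL1 he1' hV0 hZ (u * (V / W)) hlam1
    have h2 : (1 + ε) * u * (V / W * (1 / ((1 - ε) * V * e))) =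
        (1 + ε) * (u * (V / W) * (1 / ((1 - ε) * V * e))) := by ring
    rw [h2]
    exact h1
  have hdL : (d : ℝ) ≤ L := by linarith only [hM7, a1, hdR]
  have c1 : 2 * (Real.log Q / Real.log y * d) / y ≤ 1 / L ^ 4 := by
    rw [hlQ, hly]
    exact p_δ' hε hε4' hL2 (by linarith only [hM1, hYM])
      ((q_mul (by linarith only [hM1]) hl0).trans b1) d (by linarith only [hdR]) hdL
  have c2 : u * d ≤ y := by
    have e1 := p_pow (L := L) (Y := Y) hL1 3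
      (le_trans (q_mul (by push_cast; linarith only [hM1]) hl0) b1)
    have e2 : u * d ≤ L ^ 2 / 2 * L := mul_le_mul hu2 hdL (by linarith only [hdR]) (by positivity)
    have e3 : L ^ 2 / 2 * L ≤ L ^ 3 := by
      have : 0 ≤ L ^ 3 := by positivity
      calc L ^ 2 / 2 * L = L ^ 3 / 2 := by ring
        _ ≤ L ^ 3 := by linarith only [this]
    linarith only [e1, e2, e3]
  have c3 : (Real.exp ((1 / 2 - ε) * L)) ^ (1 + ε / 16) *
      Real.exp (2 * u * ((Real.exp Y) ^ (1 - (1 + ε / 16)) * (11 / 10 * e))) ≤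
      Real.exp ((1 / 2 - ε) * (1 + ε / 16) * L + 1) :=
    p_CB hε hL2 a2 hlL he0.le hel u hu0 hu2
      ((q_mul ((div_le_div_of_nonneg_right (by norm_num) hε.le).trans hM2) hl0).trans b1)
  have c4 : 200 / ε * Real.log L ≤ L :=
    (q_mul hM2 hl0).trans (by rw [mul_comm]; exact a4)
  have hErr0 : 0 < Err := by linarith only [hErr]
  have hN : 0 < N := by
    refine lt_of_lt_of_le ?_ hAB
    have := Real.exp_pos ((1 - ε) * L)
    positivity
  have hAB' : Real.exp ((1 - ε) * L) ≤ N / Err := by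
    rw [le_div_iff₀ hErr0, mul_comm]
    exact hAB
  have c5 := p_AB hε hε4' hL2 a2 c4 (hK3.trans he1) (by linarith only [he1000]) hY hZ u hu0 hu2
    b₀ J rr hb₀2 hJ2 hre _ hAB'
  have c5' : Err * (((Real.exp (Y * (2 * b₀ + 4))) ^ rr *
      Real.exp ((1 / 2 - ε) * (1 + ε / 16) * L + 1)) ^ 2 *
      (1 + u * (Real.exp (Y * (2 * b₀ + 4)) * ((Real.exp Z) ^ J + 1)))) < N / 8 := by
    have h1 := mul_lt_mul_of_pos_left c5 hErr0
    refine lt_of_lt_of_eq h1 ?_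
    field_simp
  have hΛ : 1 ≤ Real.exp (Y * (2 * b₀ + 4)) := Real.one_le_exp (by positivity)
  have hR3 : ∀ k, Lw (Real.exp (Y * (2 * b₀ + 4))) (R k) := by
    intro k
    have := hR2 k
    rw [hly] at this
    exact this
  have hdw : (d : ℝ) ≤ w := hdL.trans hwL
  have hρ := H.rho_le w y hw3 hwy hdw (hM6.trans hwM)
  have hmain := cover5g 𝒜 (PQ r w y) (PQ r y z) (gd r) d w y z (1 / ((1 - ε) * V * e)) Q
    (1 / L ^ 4) ε (1 + ε / 16)
    (Real.exp ((1 / 2 - ε) * (1 + ε / 16) * L + 1)) (11 / 10 * e) v₀ (Real.exp e)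
    (Real.exp (-(2 * e))) (Real.exp (Y * (2 * b₀ + 4))) (Real.exp (24 * e)) (V / W) N Err
    J m₀ rr hJe hm₀J hdR
    (fun p hp => ⟨(hmem₁ p hp).2.1, (hmem₁ p hp).2.2.1⟩)
    (fun p hp => ⟨(hmem₂ p hp).2.1, (hmem₂ p hp).2.2.1⟩) hgd
    hw2 hwy hyz hy9 hz1 hQ1 hε (by linarith only [hε4]) (by linarith only [hε]) hG₂ hprof
    c1 u rfl (Real.exp_pos _).le (by rw [Real.exp_le_one_iff]; linarith only [he0])
    hΛ ⟨R, hR1, hR3⟩ hρ
    hr1 hrm (Real.one_le_exp (by positivity)) huw c2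
    (p_uδ hL2 u hu2) hv₀0 c3
    (q_E8 he1' hEE)
    (p_tail he1' hC.le h72 (u * (V / W)) hlam0 hlam2 hExpL _ hEE)
    (p_mom he1' hC.le h12 (u * (V / W)) hlam0 hlam2 J hJ1)
    (p_pen he1' hC.le h12 (u * (V / W)) hlam0 hlam2)
    hit (fun p hp => by
      obtain ⟨h1, h2, h3, h4⟩ := hmem p hp
      exact huniq p h1 h2 h3 h4) hN hErr0.le
    (fun T s hT => hcount T s fun p hp => hmem p (hT hp)) c5'
  refine hmain.trans ?_
  have hloss := p_loss K₀ hK1 he1000 helog J rr hJ2 hre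
  have hcard : ((𝒜.filter (fun x => ∀ k : κ, ∃ p ∈ PQ r w y ∪ PQ r y z, hit p x k)).card : ℝ) ≤
      ((𝒜.filter (fun x => ∀ k : κ, ∃ p : ℕ, p.Prime ∧
      w < p ∧ (p : ℝ) ≤ z ∧ hit p x k)).card : ℝ) := by
    have : (𝒜.filter (fun x => ∀ k : κ, ∃ p ∈ PQ r w y ∪ PQ r y z, hit p x k)).card ≤
      (𝒜.filter (fun x => ∀ k : κ, ∃ p : ℕ, p.Prime ∧
      w < p ∧ (p : ℝ) ≤ z ∧ hit p x k)).card := by
      apply Finset.card_le_card
      intro a ha
      rw [Finset.mem_filter] at ha ⊢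
      refine ⟨ha.1, fun k => ?_⟩
      obtain ⟨p, hp, hp2⟩ := ha.2 k
      obtain ⟨h1, h2, h3, h4⟩ := hmem p hp
      exact ⟨p, h1, h2, h3, hp2⟩
    exact_mod_cast this
  exact mul_le_mul hcard hloss (by positivity) (Nat.cast_nonneg _)

include H in
/-- The covering theorem with a count, for a set of positions hit by residue classes of total density `r p / p`. -/
theorem cov5g (ε : ℝ) (hε : 0 < ε) (hε8 : ε ≤ 1 / 8) (A : ℕ) (hA : 2 ≤ A) :
    ∃ e₀ X₀ : ℝ, ∀ X : ℝ, X₀ ≤ X →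
    ∀ e : ℝ, e₀ ≤ e → e ≤ (1 - ε) * Real.log (Real.log X) →
    ∀ (α κ : Type) [DecidableEq α] [Fintype κ] [DecidableEq κ] [Nonempty κ],
    (Fintype.card κ : ℝ) ≤ (1 / 2 - 3 * ε) * (e * Real.log X * Vg r c₂ ((Real.log X) ^ A)) →
    ∀ (hit : ℕ → α → κ → Prop),
    (∀ p : ℕ, p.Prime → (Real.log X) ^ A < p →
      (p : ℝ) ≤ Real.exp (ε ^ 2 * Real.log X / (100 * e)) → r p ≠ 0 → ∀ a k l,
      hit p a k → hit p a l → k = l) →
    ∀ (𝒜 : Finset α) (N Err : ℝ), 1 ≤ Err →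
    (∀ (T : Finset ℕ) (s : ℕ → κ), (∀ p ∈ T, p.Prime ∧ (Real.log X) ^ A < p ∧
        (p : ℝ) ≤ Real.exp (ε ^ 2 * Real.log X / (100 * e)) ∧ r p ≠ 0) →
      |((𝒜.filter (fun a => ∀ p ∈ T, hit p a (s p))).card : ℝ) - N * ∏ p ∈ T, gd r p| ≤ Err) →
    Err * Real.exp ((1 - ε) * Real.log X) ≤ N →
    3 / 8 * N ≤ ((𝒜.filter (fun x => ∀ k : κ, ∃ p : ℕ, p.Prime ∧
      (Real.log X) ^ A < p ∧ (p : ℝ) ≤ Real.exp (ε ^ 2 * Real.log X / (100 * e)) ∧
      hit p x k)).card : ℝ) * Real.exp (e ^ 2 * Real.exp e) := by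
  have hC₁ := H.C0
  have hc₂ := H.c0
  have hd0 : (0:ℝ) ≤ d := Nat.cast_nonneg d
  have hA0 : (0:ℝ) ≤ A := Nat.cast_nonneg A
  have hB0 : (0:ℝ) ≤ B := Nat.cast_nonneg B
  have h0a : 0 < 100 / ε ^ 2 := by positivity
  have h0b : 0 < 300 / ε := by positivity
  have h0c : 0 < 64 * Real.exp (2 * C₁) / (c₂ * Real.exp (-C₁) * ε) := by positivity
  have h0d : 0 < 200 / ε := by positivity
  have hE₁ := Real.exp_pos C₁
  have h0e : 0 ≤ Real.exp C₁ * d := by positivity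
  have h0f : 0 ≤ |Y₀| := abs_nonneg _
  have h0g := le_abs_self Y₀
  set K₀ : ℝ := 1000 + 100 / ε ^ 2 + 300 / ε +
    64 * Real.exp (2 * C₁) / (c₂ * Real.exp (-C₁) * ε) + 72 * Real.exp C₁ + 300 * C₁ with hK₀
  set M₀ : ℝ := 8 + 200 / ε + Real.exp C₁ * d + |Y₀| + A + B + 9 * d with hM₀
  obtain ⟨e₀, he₀⟩ := ev_e K₀ (by rw [hK₀]; linarith only [h0a, h0b, h0c, hE₁, hC₁])
  obtain ⟨L₀, hL₀⟩ := ev_L5 ε M₀ hε (by linarith only [hε8])
    (by rw [hM₀]; linarith only [h0d, h0e, h0f, hA0, hB0, hd0])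
  refine ⟨max e₀ 1, Real.exp L₀, ?_⟩
  intro X hX e he heu α κ _ _ _ _ hκ hit huniq 𝒜 N Err hErr hcount hAB
  have hX0 : 0 < X := lt_of_lt_of_le (Real.exp_pos _) hX
  have hLL : L₀ ≤ Real.log X := by
    rw [Real.le_log_iff_exp_le hX0]
    exact hX
  obtain ⟨he1, he3, helog⟩ := he₀ e ((le_max_left _ _).trans he)
  obtain ⟨a1, a2, a3, a4, a5⟩ := hL₀ (Real.log X) hLL
  have b1 := a5 e ((le_max_right _ _).trans he) heu
  exact cov5g_at H ε K₀ M₀ hε hε8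
    (by rw [hK₀]; linarith only [h0a, h0b, h0c, hE₁, hC₁])
    (by rw [hK₀]; linarith only [h0a, h0b, h0c, hE₁, hC₁])
    (by rw [hK₀]; linarith only [h0a, h0b, h0c, hE₁, hC₁])
    (by rw [hK₀]; linarith only [h0a, h0b, h0c, hE₁, hC₁])
    (by rw [hK₀]; linarith only [h0a, h0b, h0c, hE₁, hC₁])
    (by rw [hK₀]; linarith only [h0a, h0b, h0c, hE₁, hC₁])
    (by rw [hK₀]; linarith only [h0a, h0b, h0c, hE₁, hC₁])
    A hA
    (by rw [hM₀]; linarith only [h0d, h0e, h0f, hA0, hB0, hd0])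
    (by rw [hM₀]; linarith only [h0d, h0e, h0f, hA0, hB0, hd0])
    (by rw [hM₀]; linarith only [h0d, h0e, h0f, hA0, hB0, hd0])
    (by rw [hM₀]; linarith only [h0d, h0e, h0f, hA0, hB0, hd0, h0g])
    (by rw [hM₀]; linarith only [h0d, h0e, h0f, hA0, hB0, hd0])
    (by rw [hM₀]; linarith only [h0d, h0e, h0f, hA0, hB0, hd0])
    (by rw [hM₀]; linarith only [h0d, h0e, h0f, hA0, hB0, hd0])
    (Real.log X) e he1 he3 helog a1 a2 a4 heu b1 κ hκ hit huniq 𝒜 N Err hErr hcount hAB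

end

end Pool.Agent.N737.GV
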