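import Pool.Agent.Y831.RC5.Cnt5
import Pool.Agent.Y831.RC3.Apply3
import Pool.Agent.H474R2.PG.CovA

set_option autoImplicit false
set_option linter.unusedSectionVars false
set_option linter.unusedVariables false

/-!
# The covering theorem with a count, for arbitrary sieve conditions of dimension one

Generalisation of `Pool.Agent.Y831.RC.cover5` (starting library) from one residue class modulo each prime and density `1 / p`
to arbitrary events `hit p a k` (the prime `p` hits the position `k` at the element `a` of a finite set) of density `gg p`.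
-/

namespace Pool.Agent.N737.GV

open Finset Filter Pool.Agent.H256R2.SC Pool.Agent.Y831.RC

open scoped Classical

section
variable {α : Type} {κ : Type} [Fintype κ] [DecidableEq κ]

/-- colouring: the prime number `i` kills the position `k` -/
noncomputable def colg (PP : Finset ℕ) (hit : ℕ → α → κ → Prop) (a : α) : Col PP.card κ := fun i =>
  if h : ∃ k, hit (emb PP i) a k then some h.choose else none

lemma colg_eq {PP : Finset ℕ} {hit : ℕ → α → κ → Prop}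
    (huniq : ∀ p ∈ PP, ∀ a k l, hit p a k → hit p a l → k = l) (a : α) (i : Fin PP.card)
    (k : κ) : colg PP hit a i = some k ↔ hit (emb PP i) a k := by
  unfold colg
  constructor
  · intro h
    split_ifs at h with h1
    have h2 := Option.some.inj h
    have h3 := h1.choose_spec
    rw [h2] at h3
    exact h3
  · intro h
    have h1 : ∃ k, hit (emb PP i) a k := ⟨k, h⟩
    rw [dif_pos h1]
    congr 1
    exact huniq _ (emb_mem PP i) a _ _ h1.choose_spec h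

open Pool.Agent.H474R2.PG (TT sT TT_mem TT_prod TT_nu sT_eq)

theorem colg_event [Nonempty κ] {PP : Finset ℕ} {hit : ℕ → α → κ → Prop}
    (huniq : ∀ p ∈ PP, ∀ a k l, hit p a k → hit p a l → k = l) (D : Col PP.card κ) (a : α) :
    (∀ i, D i ≠ none → colg PP hit a i = D i) ↔ ∀ p ∈ TT PP D, hit p a (sT PP D p) := by
  constructor
  · intro h p hp
    unfold TT at hp
    obtain ⟨i, hi, rfl⟩ := Finset.mem_map.mp hp
    have hne := mem_supp.mp hi
    obtain ⟨k, hk⟩ := Option.ne_none_iff_exists'.mp hne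
    rw [sT_eq PP D i k hk]
    have := h i hne
    rw [hk] at this
    exact (colg_eq huniq a i k).mp this
  · intro h i hi
    obtain ⟨k, hk⟩ := Option.ne_none_iff_exists'.mp hi
    rw [hk]
    rw [colg_eq huniq]
    have h1 := h (emb PP i) (by
      unfold TT
      exact Finset.mem_map_of_mem _ (mem_supp.mpr hi))
    rwa [sT_eq PP D i k hk] at h1

theorem colg_two [Nonempty κ] {PP₁ PP₂ : Finset ℕ} {hit : ℕ → α → κ → Prop}
    (hd : Disjoint PP₁ PP₂)
    (h₁ : ∀ p ∈ PP₁, ∀ a k l, hit p a k → hit p a l → k = l)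
    (h₂ : ∀ p ∈ PP₂, ∀ a k l, hit p a k → hit p a l → k = l)
    (D : Col (PP₁.card + PP₂.card) κ) :
    ∃ s : ℕ → κ, ∀ a : α, (∀ i, D i ≠ none →
      (Fin.append (colg PP₁ hit a) (colg PP₂ hit a) : Col (PP₁.card + PP₂.card) κ) i = D i) ↔
      ∀ p ∈ TT PP₁ (fstc D) ∪ TT PP₂ (sndc D), hit p a (s p) := by
  refine ⟨fun p => if p ∈ PP₁ then sT PP₁ (fstc D) p else sT PP₂ (sndc D) p, fun a => ?_⟩
  have hsplit : (∀ i, D i ≠ none →
      (Fin.append (colg PP₁ hit a) (colg PP₂ hit a) : Col (PP₁.card + PP₂.card) κ) i = D i) ↔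
      (∀ i, fstc D i ≠ none → colg PP₁ hit a i = fstc D i) ∧
      (∀ i, sndc D i ≠ none → colg PP₂ hit a i = sndc D i) := by
    constructor
    · intro h
      refine ⟨fun i hi => ?_, fun i hi => ?_⟩
      · have := h (Fin.castAdd PP₂.card i) hi
        rwa [Fin.append_left] at this
      · have := h (Fin.natAdd PP₁.card i) hi
        rwa [Fin.append_right] at this
    · rintro ⟨ha, hb⟩ i
      refine Fin.addCases (fun j hj => ?_) (fun j hj => ?_) i
      · rw [Fin.append_left]; exact ha j hj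
      · rw [Fin.append_right]; exact hb j hj
  rw [hsplit, colg_event h₁, colg_event h₂]
  constructor
  · rintro ⟨ha, hb⟩ p hp
    rw [Finset.mem_union] at hp
    show hit p a (if p ∈ PP₁ then sT PP₁ (fstc D) p else sT PP₂ (sndc D) p)
    rcases hp with hp | hp
    · rw [if_pos (TT_mem hp)]
      exact ha p hp
    · rw [if_neg (fun h => Finset.disjoint_left.1 hd h (TT_mem hp))]
      exact hb p hp
  · intro h
    refine ⟨fun p hp => ?_, fun p hp => ?_⟩
    · have h3 : hit p a (if p ∈ PP₁ then sT PP₁ (fstc D) p else sT PP₂ (sndc D) p) :=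
        h p (Finset.mem_union_left _ hp)
      rwa [if_pos (TT_mem hp)] at h3
    · have h3 : hit p a (if p ∈ PP₁ then sT PP₁ (fstc D) p else sT PP₂ (sndc D) p) :=
        h p (Finset.mem_union_right _ hp)
      rwa [if_neg (fun h => Finset.disjoint_left.1 hd h (TT_mem hp))] at h3

theorem card_PP {PP : Finset ℕ} {z : ℝ} (hz : 1 ≤ z) (h : ∀ p ∈ PP, 2 ≤ p ∧ (p : ℝ) ≤ z) :
    ((PP.card : ℝ)) + 1 ≤ z := by
  have h1 : PP ⊆ Finset.Icc 2 ⌊z⌋₊ := by
    intro p hp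
    rw [Finset.mem_Icc]
    exact ⟨(h p hp).1, Nat.le_floor (h p hp).2⟩
  have h2 := Finset.card_le_card h1
  rw [Nat.card_Icc] at h2
  have h3 : 1 ≤ ⌊z⌋₊ := Nat.le_floor (by push_cast; exact hz)
  have h4 : PP.card + 1 ≤ ⌊z⌋₊ := by omega
  calc (PP.card : ℝ) + 1 ≤ (⌊z⌋₊ : ℝ) := by exact_mod_cast h4
    _ ≤ z := Nat.floor_le (by linarith)

theorem cover5g [DecidableEq α] [Nonempty κ] (𝒜 : Finset α) (PP₁ PP₂ : Finset ℕ) (gg : ℕ → ℝ)
    (d w y z K Q δ η s CB G₂ v₀ m τ Λ R₂ ρ₁ N Err : ℝ) (J m₀ r : ℕ) (hJ : Even J)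
    (hm₀ : m₀ ≤ J)
    (hd1 : 1 ≤ d)
    (hP₁ : ∀ p ∈ PP₁, w < (p : ℝ) ∧ (p : ℝ) ≤ y)
    (hP₂ : ∀ p ∈ PP₂, y < (p : ℝ) ∧ (p : ℝ) ≤ z)
    (hg : ∀ p ∈ PP₁ ∪ PP₂, 1 / (p : ℝ) ≤ gg p ∧ gg p ≤ d / (p : ℝ))
    (hw2 : 2 ≤ w) (hwy : w ≤ y) (hyz : y ≤ z)
    (hy9 : 9 * d ≤ y) (hz1 : 1 < z) (hQ : 1 ≤ Q) (hη0 : 0 < η) (hη1 : η ≤ 1) (hs : 1 ≤ s)
    (hG₂ : ∑ i, gg (emb PP₂ i) ≤ G₂)
    (hH : ∃ h, HypS (fun i => ((emb PP₂ i : ℕ) : ℝ))
      (fun i => gg (emb PP₂ i)) h z K v₀ ∧ ∀ s, h s ≠ 0 → s.card ≤ m₀)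
    (hδ : 2 * (Real.log Q / Real.log y * d) / y ≤ δ)
    (u : ℝ) (hu : (Fintype.card κ : ℝ) = u)
    (hτ0 : 0 ≤ τ) (hτ1 : τ ≤ 1) (hΛ : 1 ≤ Λ)
    (hR : ∃ R : κ → Col PP₁.card κ → ℝ,
      BHyp (fun i => gg (emb PP₁ i)) R m τ ∧ ∀ k, Lw Λ (R k))
    (hρ : rho (fun i => gg (emb PP₁ i)) 1 ≤ ρ₁)
    (hr : Real.log Q / v₀ ≤ r) (hrm : (r:ℝ) + 1 ≤ m) (hR₂ : 1 ≤ R₂)
    (huw : 2 * (u * d) ≤ w) (huy : u * d ≤ y) (huδ : u * δ ≤ 1 / 4) (hv₀ : 0 < v₀)
    (hCB : Q ^ s * Real.exp (2 * u * (y ^ (1 - s) * G₂)) ≤ CB)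
    (hE8 : Real.exp (η * ((1 + η) * u * (ρ₁ * K) / Real.log z -
      Real.log (Q / z) / Real.log z)) ≤ 1 / 8)
    (htail : 4 * (u * ρ₁) * (τ + (δ ^ 2 +
      Real.exp (η * ((1 + η) * u * (ρ₁ * K) / Real.log z -
      Real.log (Q / z) / Real.log z)))) ≤ 1 / 12)
    (hmom : 2 * (u * ρ₁) * ((1 / 3) ^ J * Real.exp (20 * G₂)) ≤ 1 / 12)
    (hpen : 2 * (u * ρ₁) * Real.exp (20 * G₂) ≤ R₂ / 12)
    (hit : ℕ → α → κ → Prop)
    (huniq : ∀ p ∈ PP₁ ∪ PP₂, ∀ a k l, hit p a k → hit p a l → k = l)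
    (hN : 0 < N) (hErr : 0 ≤ Err)
    (hcount : ∀ (T : Finset ℕ) (s : ℕ → κ), T ⊆ PP₁ ∪ PP₂ →
      |((𝒜.filter (fun a => ∀ p ∈ T, hit p a (s p))).card : ℝ) - N * ∏ p ∈ T, gg p| ≤ Err)
    (hAB : Err * ((Λ ^ r * CB) ^ 2 * (1 + u * (Λ * (z ^ J + 1)))) < N / 8) :
    3 / 8 * N ≤ ((𝒜.filter (fun x => ∀ k : κ, ∃ p ∈ PP₁ ∪ PP₂, hit p x k)).card : ℝ) *
      (3 * (1 + 3 * Real.exp G₂ * ((J : ℝ) + 2) ^ (2 * J) * (R₂ + 1)) ^ r) ^ 2 := by
  obtain ⟨h, H, hcard⟩ := hH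
  have hzpos : 0 < z := zero_lt_one.trans hz1
  have hu0 : 0 ≤ u := by rw [← hu]; positivity
  have hy0 : 0 < y := by linarith
  have hy1 : 9 ≤ y := by linarith
  have hw0 : 0 < w := by linarith
  have hlogy : 0 < Real.log y := Real.log_pos (by linarith)
  obtain ⟨R, HR, hRL⟩ := hR
  have hd : Disjoint PP₁ PP₂ := by
    rw [Finset.disjoint_left]
    intro p hp hp'
    have h1 := (hP₁ p hp).2
    have h2 := (hP₂ p hp').1
    linarith
  have hg₁ : ∀ p ∈ PP₁, 1 / (p : ℝ) ≤ gg p ∧ gg p ≤ d / (p : ℝ) := fun p hp =>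
    hg p (Finset.mem_union_left _ hp)
  have hg₂ : ∀ p ∈ PP₂, 1 / (p : ℝ) ≤ gg p ∧ gg p ≤ d / (p : ℝ) := fun p hp =>
    hg p (Finset.mem_union_right _ hp)
  have hu₁ : ∀ p ∈ PP₁, ∀ a k l, hit p a k → hit p a l → k = l := fun p hp =>
    huniq p (Finset.mem_union_left _ hp)
  have hu₂ : ∀ p ∈ PP₂, ∀ a k l, hit p a k → hit p a l → k = l := fun p hp =>
    huniq p (Finset.mem_union_right _ hp)
  have hPw : ∀ i, w < ((emb PP₁ i : ℕ) : ℝ) := fun i => (hP₁ _ (emb_mem PP₁ i)).1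
  have hP₁0 : ∀ i, 0 < ((emb PP₁ i : ℕ) : ℝ) := fun i => hw0.trans (hPw i)
  have hPy : ∀ i, y < ((emb PP₂ i : ℕ) : ℝ) := fun i => (hP₂ _ (emb_mem PP₂ i)).1
  have hP0 : ∀ i, 0 < ((emb PP₂ i : ℕ) : ℝ) := fun i => hy0.trans (hPy i)
  have hgy : ∀ i, gg (emb PP₂ i) ≤ d / y := fun i =>
    (hg₂ _ (emb_mem PP₂ i)).2.trans (div_le_div_of_nonneg_left (by linarith) hy0 (hPy i).le)
  have h9 : d / y ≤ 1 / 9 := by
    rw [div_le_div_iff₀ hy0 (by norm_num)]
    linarith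
  have hgp : ∀ i, 0 < gg (emb PP₂ i) := fun i =>
    lt_of_lt_of_le (by have := hP0 i; positivity) (hg₂ _ (emb_mem PP₂ i)).1
  have hgp₁ : ∀ i, 0 < gg (emb PP₁ i) := fun i =>
    lt_of_lt_of_le (by have := hP₁0 i; positivity) (hg₁ _ (emb_mem PP₁ i)).1
  have hG0 : 0 ≤ ∑ i, gg (emb PP₂ i) := Finset.sum_nonneg fun i _ => (hgp i).le
  have hG₂0 : 0 ≤ G₂ := hG0.trans hG₂
  -- sizes of supports
  have hsupp : ∀ D : Col PP₂.card κ, qq (fun i => ((emb PP₂ i : ℕ) : ℝ)) D ≤ Q →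
      2 * ∑ i with D i ≠ none, gg (emb PP₂ i) ≤ δ := by
    intro D hD
    have h1 : Real.exp (((Pool.Agent.H256R2.SC.supp D).card : ℝ) * Real.log y) ≤
        qq (fun i => ((emb PP₂ i : ℕ) : ℝ)) D := by
      unfold qq
      rw [prod_nu1]
      have : Real.exp (((Pool.Agent.H256R2.SC.supp D).card : ℝ) * Real.log y) =
          ∏ i ∈ Pool.Agent.H256R2.SC.supp D, Real.exp (Real.log y) := by
        rw [Finset.prod_const, ← Real.exp_nat_mul]
      rw [this]
      apply Finset.prod_le_prod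
      · intro i _; exact (Real.exp_pos _).le
      · intro i _
        rw [Real.exp_log hy0]
        exact (hPy i).le
    have h2 := h1.trans hD
    have h3 : ((Pool.Agent.H256R2.SC.supp D).card : ℝ) * Real.log y ≤ Real.log Q := by
      rw [Real.le_log_iff_exp_le (by linarith)]
      exact h2
    have h4 : ((Pool.Agent.H256R2.SC.supp D).card : ℝ) ≤ Real.log Q / Real.log y := by
      rw [le_div_iff₀ hlogy]
      exact h3
    have h5 : ∑ i with D i ≠ none, gg (emb PP₂ i) ≤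
        (Pool.Agent.H256R2.SC.supp D).card * (d / y) := by
      have : ∑ i ∈ Pool.Agent.H256R2.SC.supp D, gg (emb PP₂ i) ≤
          ∑ i ∈ Pool.Agent.H256R2.SC.supp D, (d / y) :=
        Finset.sum_le_sum (fun i _ => hgy i)
      rw [Finset.sum_const, nsmul_eq_mul] at this
      exact this
    refine le_trans ?_ hδ
    have hdy : 0 ≤ d / y := by positivity
    calc 2 * ∑ i with D i ≠ none, gg (emb PP₂ i) ≤
          2 * ((Pool.Agent.H256R2.SC.supp D).card * (d / y)) :=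
          mul_le_mul_of_nonneg_left h5 (by norm_num)
      _ ≤ 2 * (Real.log Q / Real.log y * (d / y)) := by
          apply mul_le_mul_of_nonneg_left _ (by norm_num)
          exact mul_le_mul_of_nonneg_right h4 hdy
      _ = 2 * (Real.log Q / Real.log y * d) / y := by ring
  -- the count
  have hz0 : (1:ℝ) ≤ z ^ J := one_le_pow₀ hz1.le
  have hevent : ∀ D : Col (PP₁.card + PP₂.card) κ,
      |((((𝒜).filter (fun a => ∀ i, D i ≠ none →
        (Fin.append (colg PP₁ hit a) (colg PP₂ hit a) : Col (PP₁.card + PP₂.card) κ) i =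
          D i)).card : ℕ) : ℝ) -
        N * nu (Fin.append (fun i => gg (emb PP₁ i)) (fun i => gg (emb PP₂ i))) D| ≤ Err := by
    intro D
    obtain ⟨s, hs⟩ := colg_two hd hu₁ hu₂ D
    have h1 : (𝒜.filter (fun a => ∀ i, D i ≠ none →
        (Fin.append (colg PP₁ hit a) (colg PP₂ hit a) : Col (PP₁.card + PP₂.card) κ) i = D i)) =
        𝒜.filter (fun a => ∀ p ∈ TT PP₁ (fstc D) ∪ TT PP₂ (sndc D), hit p a (s p)) := by
      apply Finset.filter_congr
      intro a _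
      exact hs a
    have hsub : TT PP₁ (fstc D) ∪ TT PP₂ (sndc D) ⊆ PP₁ ∪ PP₂ := by
      intro p hp
      rw [Finset.mem_union] at hp ⊢
      exact hp.imp TT_mem TT_mem
    have hdT : Disjoint (TT PP₁ (fstc D)) (TT PP₂ (sndc D)) := by
      rw [Finset.disjoint_left] at hd ⊢
      intro p hp hp'
      exact hd (TT_mem hp) (TT_mem hp')
    rw [h1, nu_append, ← TT_nu PP₁ gg (fstc D), ← TT_nu PP₂ gg (sndc D),
      ← Finset.prod_union hdT]
    exact hcount _ s hsub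
  have hn2 : (PP₂.card:ℝ) + 1 ≤ z := card_PP hz1.le fun p hp => by
    obtain ⟨a1, a2⟩ := hP₂ p hp
    refine ⟨?_, a2⟩
    have : (2:ℝ) ≤ p := by linarith
    exact_mod_cast this
  have c1 : ∀ i, gg (emb PP₂ i) ≤ 1 := fun i => (hgy i).trans (by linarith)
  have c2 : ∀ i, 3 * 3 * gg (emb PP₂ i) ≤ 1 := fun i => by
    have := hgy i
    linarith
  have c3 : ∀ i, (Fintype.card κ : ℝ) * gg (emb PP₂ i) ≤ 1 := fun i => by
    rw [hu]
    calc u * gg (emb PP₂ i) ≤ u * (d / y) := mul_le_mul_of_nonneg_left (hgy i) hu0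
      _ = u * d / y := by ring
      _ ≤ 1 := by rw [div_le_one hy0]; exact huy
  have c3' : ∀ i, (Fintype.card κ : ℝ) * gg (emb PP₁ i) ≤ 1 / 2 := fun i => by
    rw [hu]
    calc u * gg (emb PP₁ i) ≤ u * (d / ((emb PP₁ i : ℕ) : ℝ)) :=
          mul_le_mul_of_nonneg_left (hg₁ _ (emb_mem PP₁ i)).2 hu0
      _ ≤ u * (d / w) := by
          apply mul_le_mul_of_nonneg_left _ hu0
          exact div_le_div_of_nonneg_left (by linarith) hw0 (hPw i).le
      _ = u * d / w := by ring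
      _ ≤ 1 / 2 := by
          rw [div_le_div_iff₀ hw0 (by norm_num)]
          linarith
  have c4 : Q ^ s * Real.exp (2 * (Fintype.card κ : ℝ) * ∑ i, 1 / ((emb PP₂ i : ℕ) : ℝ) ^ s) ≤ CB := by
    refine le_trans ?_ hCB
    apply mul_le_mul_of_nonneg_left _ (Real.rpow_nonneg (by linarith) _)
    apply Real.exp_le_exp.2
    rw [hu]
    apply mul_le_mul_of_nonneg_left _ (by positivity)
    calc ∑ i, 1 / ((emb PP₂ i : ℕ) : ℝ) ^ s ≤ ∑ i, y ^ (1 - s) * gg (emb PP₂ i) := by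
          apply Finset.sum_le_sum
          intro i _
          have e1 : 1 / ((emb PP₂ i : ℕ) : ℝ) ^ s = ((emb PP₂ i : ℕ) : ℝ) ^ (1 - s) *
              (1 / ((emb PP₂ i : ℕ) : ℝ)) := by
            rw [Real.rpow_sub (hP0 i), Real.rpow_one]
            have := (hP0 i).ne'
            field_simp
          rw [e1]
          have hp := hP0 i
          apply mul_le_mul _ (hg₂ _ (emb_mem PP₂ i)).1 (by positivity)
            (Real.rpow_nonneg hy0.le _)
          exact Real.rpow_le_rpow_of_nonpos hy0 (hPy i).le (by linarith)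
      _ = y ^ (1 - s) * ∑ i, gg (emb PP₂ i) := by rw [Finset.mul_sum]
      _ ≤ y ^ (1 - s) * G₂ := mul_le_mul_of_nonneg_left hG₂ (Real.rpow_nonneg hy0.le _)
  have c9 : 0 ≤ rho (fun i => gg (emb PP₁ i)) 1 := by
    unfold rho
    apply Finset.prod_nonneg
    intro i _
    have h1 : gg (emb PP₁ i) ≤ 1 := by
      have e1 : (1:ℝ) ≤ Fintype.card κ := by exact_mod_cast Fintype.card_pos
      have e2 := c3' i
      have e3 := hgp₁ i
      nlinarith
    push_cast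
    linarith
  set ρ₀ : ℝ := rho (fun i => gg (emb PP₁ i)) 1 with hρ₀
  have hG20 : Real.exp (20 * ∑ i, gg (emb PP₂ i)) ≤ Real.exp (20 * G₂) := by
    apply Real.exp_le_exp.2
    linarith
  have huρ : u * ρ₀ ≤ u * ρ₁ := mul_le_mul_of_nonneg_left hρ hu0
  have huρ0 : 0 ≤ u * ρ₀ := mul_nonneg hu0 c9
  have c5 : 2 * ((Fintype.card κ : ℝ) * ρ₀) *
      ((1 / 3) ^ J * Real.exp (20 * ∑ i, gg (emb PP₂ i))) ≤ 1 / 12 := by
    refine le_trans ?_ hmom
    rw [hu]
    apply mul_le_mul (by linarith) _ (by positivity) (by linarith)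
    exact mul_le_mul_of_nonneg_left hG20 (by positivity)
  have c5' : 2 * ((Fintype.card κ : ℝ) * ρ₀) *
      Real.exp (20 * ∑ i, gg (emb PP₂ i)) ≤ R₂ / 12 := by
    refine le_trans ?_ hpen
    rw [hu]
    exact mul_le_mul (by linarith) hG20 (Real.exp_pos _).le (by linarith)
  have hlogQ : 0 ≤ Real.log Q := Real.log_nonneg hQ
  have hn0 : (0:ℝ) ≤ (PP₂.card:ℝ) + 1 := by positivity
  have hCB0 : 0 ≤ CB := le_trans (by positivity) c4
  have c6 : Err * ((Λ ^ r * CB) ^ 2 *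
      (1 + Fintype.card κ * (Λ * (((PP₂.card:ℝ) + 1) ^ J + 1)))) < N / 8 := by
    refine lt_of_le_of_lt ?_ hAB
    rw [hu]
    have e3 := pow_le_pow_left₀ hn0 hn2 J
    have e4 : Λ * (((PP₂.card:ℝ) + 1) ^ J + 1) ≤ Λ * (z ^ J + 1) :=
      mul_le_mul_of_nonneg_left (by linarith) (by linarith)
    have e5 := mul_le_mul_of_nonneg_left e4 hu0
    apply mul_le_mul_of_nonneg_left _ hErr
    apply mul_le_mul_of_nonneg_left (by linarith) (by positivity)
  have hlz : 0 < Real.log z := Real.log_pos hz1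
  have hexp : Real.exp (η * ((1 + η) * (Fintype.card κ : ℝ) * (ρ₀ * K) / Real.log z -
        Real.log (Q / z) / Real.log z)) ≤ Real.exp (η * ((1 + η) * u * (ρ₁ * K) / Real.log z -
      Real.log (Q / z) / Real.log z)) := by
    rw [hu]
    apply Real.exp_le_exp.2
    apply mul_le_mul_of_nonneg_left _ hη0.le
    apply sub_le_sub_right
    apply div_le_div_of_nonneg_right _ hlz.le
    apply mul_le_mul_of_nonneg_left _ (by positivity)
    exact mul_le_mul_of_nonneg_right hρ H.K0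
  have c7 : 4 * ((Fintype.card κ : ℝ) * ρ₀) * (τ + (δ ^ 2 +
      Real.exp (η * ((1 + η) * (Fintype.card κ : ℝ) * (ρ₀ * K) / Real.log z -
        Real.log (Q / z) / Real.log z)))) ≤ 1 / 12 := by
    refine le_trans ?_ htail
    rw [hu] at hexp ⊢
    apply mul_le_mul (by linarith) _ _ (by linarith)
    · linarith
    · have := Real.exp_pos (η * ((1 + η) * u * (ρ₀ * K) / Real.log z -
        Real.log (Q / z) / Real.log z))
      positivity
  have c7' := hexp.trans hE8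
  have c8 : (Fintype.card κ : ℝ) * δ ≤ 1 / 4 := by rw [hu]; exact huδ
  have hmain := core5 (κ := κ) 𝒜
    (fun a => (Fin.append (colg PP₁ hit a) (colg PP₂ hit a) : Col (PP₁.card + PP₂.card) κ))
    H (fun i => gg (emb PP₁ i)) R m τ HR hτ0 hτ1 Λ hΛ hRL Q δ N Err η s CB R₂
    J m₀ r hJ hm₀ hN hErr
    hQ hη0 hη1 (by linarith) (fun i => (hgp₁ i).le) c3' c9 c1 c2 c3 hsupp c8
    hr hrm hR₂ hcard c4 c7' c7 c5 c5' hevent c6
  refine hmain.trans ?_
  have hA1 : (((𝒜).filter (fun a => ∀ k, ∃ i,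
      (Fin.append (colg PP₁ hit a) (colg PP₂ hit a) : Col (PP₁.card + PP₂.card) κ) i =
        some k)).card : ℝ) ≤
      (((𝒜).filter (fun x => ∀ k : κ, ∃ p ∈ PP₁ ∪ PP₂, hit p x k)).card : ℝ) := by
    have : ((𝒜).filter (fun a => ∀ k, ∃ i,
      (Fin.append (colg PP₁ hit a) (colg PP₂ hit a) : Col (PP₁.card + PP₂.card) κ) i =
        some k)).card ≤
      ((𝒜).filter (fun x => ∀ k : κ, ∃ p ∈ PP₁ ∪ PP₂, hit p x k)).card := by
      apply Finset.card_le_card
      intro a ha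
      rw [Finset.mem_filter] at ha ⊢
      refine ⟨ha.1, fun k => ?_⟩
      obtain ⟨i, hi⟩ := ha.2 k
      revert hi
      refine Fin.addCases (fun j hj => ?_) (fun j hj => ?_) i
      · rw [Fin.append_left] at hj
        have h1 := (colg_eq hu₁ a j k).mp hj
        exact ⟨emb PP₁ j, Finset.mem_union_left _ (emb_mem PP₁ j), h1⟩
      · rw [Fin.append_right] at hj
        have h1 := (colg_eq hu₂ a j k).mp hj
        exact ⟨emb PP₂ j, Finset.mem_union_right _ (emb_mem PP₂ j), h1⟩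
    exact_mod_cast this
  apply mul_le_mul hA1 _ (by positivity) (Nat.cast_nonneg _)
  have hR20 : 0 ≤ R₂ + 1 := by linarith
  apply pow_le_pow_left₀ (by positivity)
  apply mul_le_mul_of_nonneg_left _ (by norm_num)
  apply pow_le_pow_left₀ (by positivity)
  have h5 : Real.exp (∑ i, gg (emb PP₂ i)) ≤ Real.exp G₂ := Real.exp_le_exp.2 hG₂
  have h6 : 0 ≤ ((J : ℝ) + 2) ^ (2 * J) * (R₂ + 1) := by positivity
  have h7 := mul_le_mul_of_nonneg_right h5 h6
  linarith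

end

end Pool.Agent.N737.GV
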