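import Pool.Agent.N737.GV.G2
import Pool.Agent.N737.GV.G3
import Pool.Agent.H474R2.PG.Rough
import Pool.Agent.Y831.RC5.Cov5

set_option autoImplicit false
set_option linter.unusedSectionVars false
set_option linter.unusedVariables false

/-! # Parameters and Mertens sums for general densities -/

namespace Pool.Agent.N737.GV

open Finset Filter Pool.Agent.H256R2.SC Pool.Agent.Y831.RC

open Pool.Agent.H474R2.PG (Sg PR)

open scoped Classical

/-- density -/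
noncomputable def gd (r : ℕ → ℕ) (p : ℕ) : ℝ := (r p : ℝ) / (p : ℝ)

/-- the sieving primes in `(y, z]` -/
noncomputable abbrev PQ (r : ℕ → ℕ) (y z : ℝ) : Finset ℕ := Pool.Agent.H474R2.PG.PS r y z

theorem mem_PQ {r : ℕ → ℕ} {y z : ℝ} (hz : 0 ≤ z) {p : ℕ} :
    p ∈ PQ r y z ↔ p.Prime ∧ y < (p : ℝ) ∧ (p : ℝ) ≤ z ∧ r p ≠ 0 := by
  unfold PQ Pool.Agent.H474R2.PG.PS
  rw [mem_filter, Pool.Agent.H474R2.PG.RoughAux.mem_PR hz]
  tauto

/-- Mertens data of a density -/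
structure MD (r : ℕ → ℕ) (d B : ℕ) (C₁ c₂ Y₀ : ℝ) : Prop where
  d1 : 1 ≤ d
  rd : ∀ p : ℕ, p.Prime → B < p → r p ≤ d
  C0 : 0 ≤ C₁
  mer : ∀ w : ℝ, 3 ≤ w → |Sg r w - Real.log (Real.log w)| ≤ C₁
  c0 : 0 < c₂
  c1 : c₂ ≤ 1
  rough : ∀ y z x : ℝ, Y₀ ≤ y → y ≤ x → x ≤ z →
      c₂ * Real.log x * Real.exp (-(Sg r y)) - 1 ≤
        ∑ s ∈ ((PQ r y z).powerset.filter
            (fun s : Finset ℕ => s.Nonempty ∧ ∏ p ∈ s, (p : ℝ) ≤ x)),
          ∏ p ∈ s, gd r p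

section
variable {r : ℕ → ℕ} {d B : ℕ} {C₁ c₂ Y₀ : ℝ} (H : MD r d B C₁ c₂ Y₀)

theorem sum_PQ (r : ℕ → ℕ) {y w : ℝ} (hy : 0 ≤ y) (hyw : y ≤ w) :
    ∑ p ∈ PQ r y w, gd r p = Sg r w - Sg r y :=
  Pool.Agent.H474R2.PG.RoughAux.sum_PS r hy hyw

/-- the sieve product -/
noncomputable def Vg (r : ℕ → ℕ) (c₂ : ℝ) (y : ℝ) : ℝ := c₂ * Real.exp (-(Sg r y))

include H in
theorem MD.Vpos (y : ℝ) : 0 < Vg r c₂ y := mul_pos H.c0 (Real.exp_pos _)

theorem Sg_nonneg (r : ℕ → ℕ) (w : ℝ) : 0 ≤ Sg r w :=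
  Finset.sum_nonneg fun p _ => by positivity

include H in
theorem MD.Vone (y : ℝ) : Vg r c₂ y ≤ 1 := by
  unfold Vg
  have h1 : Real.exp (-(Sg r y)) ≤ 1 := by
    rw [Real.exp_le_one_iff]
    linarith [Sg_nonneg r y]
  have := H.c0
  have := H.c1
  have := Real.exp_pos (-(Sg r y))
  nlinarith

theorem log_pos3 {w : ℝ} (hw : 3 ≤ w) : 1 ≤ Real.log w := by
  rw [Real.le_log_iff_exp_le (by linarith)]
  have := Real.exp_one_lt_d9
  linarith

include H in
theorem MD.Vbounds (w : ℝ) (hw : 3 ≤ w) : c₂ * Real.exp (-C₁) ≤ Vg r c₂ w * Real.log w ∧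
    Vg r c₂ w * Real.log w ≤ Real.exp C₁ := by
  have h := abs_le.1 (H.mer w hw)
  have hl : 0 < Real.log w := by linarith [log_pos3 hw]
  have e1 : Vg r c₂ w * Real.log w = c₂ * Real.exp (Real.log (Real.log w) - Sg r w) := by
    unfold Vg
    rw [sub_eq_add_neg, Real.exp_add, Real.exp_log hl]
    ring
  rw [e1]
  constructor
  · apply mul_le_mul_of_nonneg_left _ H.c0.le
    exact Real.exp_le_exp.2 (by linarith)
  · have e2 : Real.exp (Real.log (Real.log w) - Sg r w) ≤ Real.exp C₁ :=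
      Real.exp_le_exp.2 (by linarith)
    have := H.c0
    have := H.c1
    have e3 := Real.exp_pos (Real.log (Real.log w) - Sg r w)
    nlinarith

include H in
theorem MD.sum_le (a b : ℝ) (ha : 3 ≤ a) (hab : a ≤ b) :
    ∑ p ∈ PQ r a b, gd r p ≤ Real.log (Real.log b / Real.log a) + 2 * C₁ := by
  rw [sum_PQ r (by linarith) hab]
  have h1 := abs_le.1 (H.mer a ha)
  have h2 := abs_le.1 (H.mer b (ha.trans hab))
  have l1 := log_pos3 ha
  have l2 := log_pos3 (ha.trans hab)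
  rw [Real.log_div (by linarith) (by linarith)]
  linarith

theorem gd_pos {r : ℕ → ℕ} {p : ℕ} (hp : p.Prime) (h : r p ≠ 0) : 1 / (p : ℝ) ≤ gd r p := by
  unfold gd
  have hp0 : (0:ℝ) < p := by exact_mod_cast hp.pos
  apply div_le_div_of_nonneg_right _ hp0.le
  exact_mod_cast Nat.one_le_iff_ne_zero.2 h

include H in
theorem MD.gd_le {p : ℕ} (hp : p.Prime) (h : B < p) : gd r p ≤ (d : ℝ) / (p : ℝ) := by
  unfold gd
  have hp0 : (0:ℝ) < p := by exact_mod_cast hp.pos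
  apply div_le_div_of_nonneg_right _ hp0.le
  exact_mod_cast H.rd p hp h

include H in
theorem MD.rho_le (w y : ℝ) (hw : 3 ≤ w) (hwy : w ≤ y) (hwd : (d : ℝ) ≤ w) (hwB : (B : ℝ) ≤ w) :
    rho (fun i => gd r (emb (PQ r w y) i)) 1 ≤ Vg r c₂ y / Vg r c₂ w := by
  have hy0 : 0 ≤ y := by linarith
  have e0 : Vg r c₂ y / Vg r c₂ w = Real.exp (-(Sg r y - Sg r w)) := by
    unfold Vg
    have := H.c0
    rw [mul_div_mul_left _ _ this.ne', ← Real.exp_sub]
    congr 1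
    ring
  rw [e0, ← sum_PQ r (by linarith) hwy]
  have e1 : ∑ p ∈ PQ r w y, gd r p = ∑ i, gd r (emb (PQ r w y) i) :=
    (sum_emb (PQ r w y) (fun p => gd r p)).symm
  rw [e1, ← Finset.sum_neg_distrib, Real.exp_sum]
  unfold rho
  apply Finset.prod_le_prod
  · intro i _
    obtain ⟨h1, h2, h3, h4⟩ := (mem_PQ hy0).1 (emb_mem (PQ r w y) i)
    have hB : B < emb (PQ r w y) i := by
      have : (B:ℝ) < (emb (PQ r w y) i : ℕ) := by linarith
      exact_mod_cast this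
    have h5 := H.gd_le h1 hB
    have h6 : (d:ℝ) / ((emb (PQ r w y) i : ℕ):ℝ) ≤ 1 := by
      rw [div_le_one (by linarith)]
      linarith
    push_cast
    linarith
  · intro i _
    have := Real.add_one_le_exp (-(gd r (emb (PQ r w y) i)))
    push_cast
    linarith

end

/-! ### parameters -/

variable {L e ε Y Z V W c C D : ℝ}

/-- the profile inequality -/
theorem p_A' (hε : 0 < ε) (hε4 : ε ≤ 1 / 4) (hL : 1 ≤ L) (he1 : 1 ≤ e) (hc : 0 < c) (hD : 1 ≤ D)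
    (hY : Y = L * Real.exp (-e) / e ^ 2) (hV0 : 0 < V) (hcV : c ≤ V * Y)
    (hec : 64 * D / (c * ε) ≤ e)
    (lg : ℝ) (hlg : (1 - ε / 4) * e ≤ lg) (m₀ : ℝ) (hm₀ : 20 * e ≤ m₀) :
    (1 - ε) * V * e ≤ V * lg - D * e ^ 2 / (L * Real.exp (-e)) -
      Real.exp (3 * (11 / 10 * e) - m₀) / (L * Real.exp (-e)) := by
  have he0 : 0 < e := by linarith
  have hEn := Real.exp_pos (-e)
  have hv : 0 < L * Real.exp (-e) := by positivity
  have hYv : L * Real.exp (-e) = Y * e ^ 2 := by rw [hY]; field_simp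
  have hY0 : 0 < Y := by rw [hY]; positivity
  have h2 : V * ((1 - ε / 4) * e) ≤ V * lg := mul_le_mul_of_nonneg_left hlg hV0.le
  -- second term
  have h3 : D * e ^ 2 / (L * Real.exp (-e)) = D / Y := by
    rw [hYv]; field_simp
  have h5 : 64 * D ≤ e * (c * ε) := by rw [div_le_iff₀ (by positivity)] at hec; exact hec
  have h4 : D / Y ≤ ε / 32 * e * V := by
    rw [div_le_iff₀ hY0]
    have h6 : e * ε * c ≤ e * ε * (V * Y) := mul_le_mul_of_nonneg_left hcV (by positivity)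
    nlinarith
  -- third term
  have h5 : Real.exp (3 * (11 / 10 * e) - m₀) / (L * Real.exp (-e)) ≤ ε / 32 * e * V := by
    have h6 : Real.exp (3 * (11 / 10 * e) - m₀) ≤ 1 := by
      rw [Real.exp_le_one_iff]
      linarith
    have h7 : 1 / (L * Real.exp (-e)) ≤ D / Y := by
      rw [hYv, div_le_div_iff₀ (by positivity) hY0]
      have : 1 ≤ e ^ 2 := one_le_pow₀ he1
      have h8 : 1 * 1 ≤ D * e ^ 2 := mul_le_mul hD this zero_le_one (by linarith)
      nlinarith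
    calc Real.exp (3 * (11 / 10 * e) - m₀) / (L * Real.exp (-e)) ≤ 1 / (L * Real.exp (-e)) :=
          div_le_div_of_nonneg_right h6 hv.le
      _ ≤ D / Y := h7
      _ ≤ _ := h4
  rw [h3]
  have h6 : (1 - ε) * V * e ≤ V * ((1 - ε / 4) * e) - ε / 32 * e * V -
      ε / 32 * e * V := by
    have h7 : 0 ≤ V * e := by positivity
    have h8 : (1 - ε) ≤ (1 - ε / 4) - ε / 32 - ε / 32 := by linarith
    have h9 := mul_le_mul_of_nonneg_left h8 h7
    linarith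
  linarith

theorem p_BA' (hε : 0 < ε) (hε4 : ε ≤ 1 / 4) (hL : 1 ≤ L) (he1 : 1 ≤ e) (hc : 0 < c)
    (hD : 1 ≤ D)
    (hY : Y = L * Real.exp (-e) / e ^ 2) (hV0 : 0 < V) (hcV : c ≤ V * Y)
    (hec : 64 * D / (c * ε) ≤ e) :
    D * e ^ 2 ≤ (1 - ε) * V * e * (L * Real.exp (-e)) := by
  have he0 : 0 < e := by linarith
  have hYv : L * Real.exp (-e) = Y * e ^ 2 := by rw [hY]; field_simp
  rw [hYv]
  have h5 : 64 * D ≤ e * (c * ε) := by rw [div_le_iff₀ (by positivity)] at hec; exact hec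
  have h6 : 64 * D ≤ e * c := by
    have : e * (c * ε) ≤ e * c := by
      have h7 : 0 ≤ e * c := by positivity
      nlinarith
    linarith
  have h7 : e * c ≤ e * (V * Y) := mul_le_mul_of_nonneg_left hcV he0.le
  have h8 : D ≤ (1 - ε) * (e * (V * Y)) := by nlinarith
  have h9 := mul_le_mul_of_nonneg_right h8 (show 0 ≤ e ^ 2 by positivity)
  calc D * e ^ 2 ≤ (1 - ε) * (e * (V * Y)) * e ^ 2 := h9
    _ = _ := by ring

theorem p_δ' (hε : 0 < ε) (hε4 : ε ≤ 1 / 4) (hL : 2 ≤ L) (hY1 : 1 ≤ Y) (hY : 6 * Real.log L ≤ Y)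
    (dd : ℝ) (hd0 : 0 ≤ dd) (hdL : dd ≤ L) :
    2 * ((1 / 2 - ε) * L / Y * dd) / Real.exp Y ≤ 1 / L ^ 4 := by
  have hL0 : 0 < L := by linarith
  have h1 := p_pow (L := L) (Y := Y) (by linarith) 6 (by push_cast; exact hY)
  have h2 : 2 * ((1 / 2 - ε) * L / Y * dd) ≤ L ^ 2 := by
    have h3 : (1 / 2 - ε) * L / Y ≤ (1 / 2 - ε) * L := by
      apply div_le_self _ hY1
      have : 0 ≤ 1 / 2 - ε := by linarith
      positivity
    have h4 : (1 / 2 - ε) * L / Y ≤ L / 2 := by nlinarith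
    have h5 : (1 / 2 - ε) * L / Y * dd ≤ L / 2 * L :=
      mul_le_mul h4 hdL hd0 (by positivity)
    nlinarith
  rw [div_le_div_iff₀ (Real.exp_pos _) (by positivity)]
  calc 2 * ((1 / 2 - ε) * L / Y * dd) * L ^ 4 ≤ L ^ 2 * L ^ 4 :=
        mul_le_mul_of_nonneg_right h2 (by positivity)
    _ = L ^ 6 := by ring
    _ ≤ Real.exp Y := h1
    _ = 1 * Real.exp Y := (one_mul _).symm

/-- `u d` is small -/
theorem p_uw' (hL : 1 ≤ L) (hl : 1 ≤ Real.log L) (he0 : 0 ≤ e) (hel : e ≤ Real.log L)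
    (hW0 : 0 < W) (hε : 0 < ε) (A : ℕ) (hA : 2 ≤ A) (hCW : W * (A * Real.log L) ≤ C) (dd : ℝ)
    (hd0 : 0 ≤ dd) (hCL : C * dd ≤ L)
    (u : ℝ) (hu0 : 0 ≤ u) (hu : u ≤ (1 / 2 - 3 * ε) * (e * L * W)) :
    2 * (u * dd) ≤ L ^ A := by
  have hL0 : 0 < L := by linarith
  have h0 : 0 ≤ e * L * W := by positivity
  have h1 : 2 * u ≤ e * L * W := by nlinarith
  have hAR : (2:ℝ) ≤ A := by exact_mod_cast hA
  have h2 : e * W ≤ C := by
    calc e * W ≤ Real.log L * W := mul_le_mul_of_nonneg_right hel hW0.le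
      _ ≤ W * (A * Real.log L) := by
          have : 0 ≤ (A - 1) * (Real.log L * W) := by
            have : (0:ℝ) ≤ A - 1 := by linarith
            positivity
          nlinarith
      _ ≤ C := hCW
  calc 2 * (u * dd) = (2 * u) * dd := by ring
    _ ≤ (e * L * W) * dd := mul_le_mul_of_nonneg_right h1 hd0
    _ = L * ((e * W) * dd) := by ring
    _ ≤ L * (C * dd) := by
        apply mul_le_mul_of_nonneg_left _ hL0.le
        exact mul_le_mul_of_nonneg_right h2 hd0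
    _ ≤ L * L := mul_le_mul_of_nonneg_left hCL hL0.le
    _ = L ^ 2 := by ring
    _ ≤ L ^ A := pow_le_pow_right₀ hL hA

theorem q_τ' {G : ℝ} (he : 128 * G + 2 ≤ e) (he0 : 0 ≤ e) (b₀ : ℕ) (hb₀ : 4 * e ≤ b₀) :
    Real.exp e * (1 / 3) ^ b₀ * Real.exp (128 * G + 2) ≤ Real.exp (-(2 * e)) := by
  have e1 := third_le_exp b₀ (4 * e) hb₀
  calc Real.exp e * (1 / 3) ^ b₀ * Real.exp (128 * G + 2)
      ≤ Real.exp e * Real.exp (-(4 * e)) * Real.exp e := by
        apply mul_le_mul _ (Real.exp_le_exp.2 he) (Real.exp_pos _).le (by positivity)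
        exact mul_le_mul_of_nonneg_left e1 (Real.exp_pos e).le
    _ = Real.exp (-(2 * e)) := by
        rw [← Real.exp_add, ← Real.exp_add]
        congr 1
        ring

end Pool.Agent.N737.GV
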