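import Pool.Agent.N737.GV.G5
import Pool.Agent.H474R2.GE.FA
import Pool.Agent.N737.GV.Cnt
import Pool.Agent.Y831.RC5.Avg5

set_option autoImplicit false
set_option linter.unusedSectionVars false
set_option linter.unusedVariables false

/-! # Counting values of a polynomial in classes, all moduli -/

namespace Pool.Agent.N737.GV

open Finset Polynomial

open Pool.Agent.H474R2.PG (rho Sg PR)

open scoped Classical

/-- the Mertens data of an irreducible polynomial -/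
theorem md_rho (f : ℤ[X]) (hf : Irreducible f) (hd : 0 < f.natDegree) :
    ∃ (B : ℕ) (C₁ c₂ Y₀ : ℝ), MD (rho f) f.natDegree B C₁ c₂ Y₀ := by
  obtain ⟨B, hB⟩ := Pool.Agent.H474R2.PG.rho_le f hf.ne_zero
  obtain ⟨C₁, hC₁, hM⟩ := Pool.Agent.H474R2.GE.mertens_rho f hf hd
  obtain ⟨c₂, hc₂, Y₀, hY₀, hRL⟩ := Pool.Agent.H474R2.PG.rough_lower (rho f) f.natDegree B hB C₁
    (fun w hw => by
      have := (abs_le.1 (hM w hw)).1
      linarith)
  refine ⟨B, C₁, min c₂ 1, Y₀, hd, hB, hC₁, hM, lt_min hc₂ one_pos, min_le_right _ _, ?_⟩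
  intro y z x hy hyx hxz
  refine le_trans ?_ (hRL y z x hy hyx hxz)
  have h1 : 0 ≤ Real.log x := Real.log_nonneg (by linarith)
  have h2 := Real.exp_pos (-(Sg (rho f) y))
  have h3 : min c₂ 1 * Real.log x ≤ c₂ * Real.log x :=
    mul_le_mul_of_nonneg_right (min_le_left _ _) h1
  have h4 := mul_le_mul_of_nonneg_right h3 h2.le
  linarith

/-- a subset with a product just above `N` -/
theorem exists_sub (z N : ℝ) (hN : 1 ≤ N) (T : Finset ℕ) (hT : ∀ p ∈ T, 0 < (p : ℝ) ∧ (p : ℝ) ≤ z)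
    (h : N < ∏ p ∈ T, (p : ℝ)) :
    ∃ T' ⊆ T, N < ∏ p ∈ T', (p : ℝ) ∧ ∏ p ∈ T', (p : ℝ) ≤ N * z := by
  induction T using Finset.induction_on with
  | empty => simp at h; linarith
  | insert p T hpT ih =>
    by_cases h1 : N < ∏ q ∈ T, (q : ℝ)
    · obtain ⟨T', hT', h2, h3⟩ := ih (fun q hq => hT q (Finset.mem_insert_of_mem hq)) h1
      exact ⟨T', hT'.trans (Finset.subset_insert _ _), h2, h3⟩
    · refine ⟨insert p T, subset_rfl, h, ?_⟩
      rw [Finset.prod_insert hpT]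
      obtain ⟨h2, h3⟩ := hT p (Finset.mem_insert_self _ _)
      calc (p : ℝ) * ∏ q ∈ T, (q : ℝ) ≤ p * N := mul_le_mul_of_nonneg_left (not_lt.1 h1) h2.le
        _ ≤ z * N := mul_le_mul_of_nonneg_right h3 (by linarith)
        _ = N * z := mul_comm _ _

theorem card_le_log (w P : ℝ) (hw : 1 < w) (T : Finset ℕ) (hT : ∀ p ∈ T, w < (p : ℝ))
    (h : ∏ p ∈ T, (p : ℝ) ≤ P) : (T.card : ℝ) * Real.log w ≤ Real.log P := by
  have h2 : w ^ T.card ≤ ∏ p ∈ T, (p : ℝ) := by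
    have : w ^ T.card = ∏ p ∈ T, w := by rw [Finset.prod_const]
    rw [this]
    exact Finset.prod_le_prod (fun _ _ => by linarith) (fun p hp => (hT p hp).le)
  have h5 := Real.log_le_log (by positivity) (h2.trans h)
  rwa [Real.log_pow] at h5

/-- counting, uniformly in the modulus -/
theorem count_all (f : ℤ[X]) (d : ℕ) (hd : 1 ≤ d) (w z : ℝ) (hw : (d : ℝ) ≤ w) (hw1 : 1 < w)
    (hz1 : 1 ≤ z)
    (A B : ℤ) (hAB : A ≤ B) (W : ℕ) (hW : 1 ≤ W) (r : ℤ) (N E : ℝ)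
    (hN : N = ((B : ℝ) - A) / W) (hN1 : 1 ≤ N)
    (hE : Real.log d / Real.log w * Real.log (N * z) ≤ E)
    (T : Finset ℕ)
    (hT : ∀ p ∈ T, p.Prime ∧ ¬ p ∣ W ∧ w < (p : ℝ) ∧ (p : ℝ) ≤ z ∧ rho f p ≤ d) (s : ℕ → ℤ) :
    |(((Finset.Ioc A B).filter (fun a : ℤ => (W : ℤ) ∣ a - r ∧
        ∀ p ∈ T, (p : ℤ) ∣ f.eval (a + s p))).card : ℝ) -
      N * ∏ p ∈ T, gd (rho f) p| ≤ 2 * Real.exp E := by
  have hlw : 0 < Real.log w := Real.log_pos hw1
  have hdR : (1:ℝ) ≤ d := by exact_mod_cast hd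
  have hld : 0 ≤ Real.log d := Real.log_nonneg hdR
  -- the size of the error for subsets of bounded product
  have hsize : ∀ T' ⊆ T, ∏ p ∈ T', (p : ℝ) ≤ N * z →
      ∏ p ∈ T', (rho f p : ℝ) ≤ Real.exp E := by
    intro T' hT' hP
    have h1 : ∏ p ∈ T', (rho f p : ℝ) ≤ ∏ p ∈ T', (d : ℝ) := by
      apply Finset.prod_le_prod
      · intro p _; positivity
      · intro p hp
        exact_mod_cast (hT p (hT' hp)).2.2.2.2
    rw [Finset.prod_const] at h1
    refine h1.trans ?_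
    have h6 : (d : ℝ) ^ T'.card = Real.exp (T'.card * Real.log d) := by
      rw [Real.exp_nat_mul, Real.exp_log (by linarith)]
    rw [h6]
    apply Real.exp_le_exp.mpr
    refine le_trans ?_ hE
    have h7 := card_le_log w (N * z) hw1 T' (fun p hp => (hT p (hT' hp)).2.2.1) hP
    rw [div_mul_eq_mul_div, le_div_iff₀ hlw]
    calc (T'.card : ℝ) * Real.log d * Real.log w = Real.log d * (T'.card * Real.log w) := by ring
      _ ≤ Real.log d * Real.log (N * z) := mul_le_mul_of_nonneg_left h7 hld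
  have hcc : ∀ T' ⊆ T, |(((Finset.Ioc A B).filter (fun a : ℤ => (W : ℤ) ∣ a - r ∧
        ∀ p ∈ T', (p : ℤ) ∣ f.eval (a + s p))).card : ℝ) -
      N * ∏ p ∈ T', gd (rho f) p| ≤ ∏ p ∈ T', (rho f p : ℝ) := by
    intro T' hT'
    rw [hN]
    have h := Pool.Agent.N737.GV.Cnt.count_class f A B hAB W hW r T'
      (fun p hp => ⟨(hT p (hT' hp)).1, (hT p (hT' hp)).2.1⟩) s
    refine le_trans (le_of_eq ?_) h
    congr!
  by_cases hz : ∏ p ∈ T, (p : ℝ) ≤ N * z
  · refine (hcc T subset_rfl).trans ((hsize T subset_rfl hz).trans ?_)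
    have := Real.exp_pos E
    linarith
  · push Not at hz
    have hNz : N ≤ N * z := le_mul_of_one_le_right (by linarith) hz1
    have hp0 : ∀ p ∈ T, 0 < (p : ℝ) ∧ (p : ℝ) ≤ z := fun p hp =>
      ⟨by linarith [(hT p hp).2.2.1], (hT p hp).2.2.2.1⟩
    obtain ⟨T', hT', h1, h2⟩ := exists_sub z N hN1 T hp0 (lt_of_le_of_lt hNz hz)
    have h3 := hsize T' hT' h2
    have h4 := (abs_le.1 (hcc T' hT')).2
    have hE0 := Real.exp_pos E
    have hg0 : ∀ p ∈ T, 0 ≤ gd (rho f) p := fun p _ => by unfold gd; positivity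
    have hg1 : ∀ p ∈ T, gd (rho f) p ≤ 1 := fun p hp => by
      unfold gd
      rw [div_le_one (hp0 p hp).1]
      have e1 : (rho f p : ℝ) ≤ d := by exact_mod_cast (hT p hp).2.2.2.2
      have e2 := (hT p hp).2.2.1
      linarith
    have h5 : N * ∏ p ∈ T', gd (rho f) p ≤ Real.exp E := by
      have e1 : ∏ p ∈ T', gd (rho f) p = (∏ p ∈ T', (rho f p : ℝ)) / ∏ p ∈ T', (p : ℝ) := by
        unfold gd
        rw [Finset.prod_div_distrib]
      have e2 : 0 < ∏ p ∈ T', (p : ℝ) := Finset.prod_pos fun p hp => (hp0 p (hT' hp)).1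
      rw [e1, mul_div_assoc', div_le_iff₀ e2]
      calc N * ∏ p ∈ T', (rho f p : ℝ) ≤ (∏ p ∈ T', (p : ℝ)) * Real.exp E :=
            mul_le_mul h1.le h3 (Finset.prod_nonneg fun p _ => Nat.cast_nonneg _) e2.le
        _ = _ := mul_comm _ _
    have h6 : N * ∏ p ∈ T, gd (rho f) p ≤ Real.exp E := by
      refine le_trans ?_ h5
      apply mul_le_mul_of_nonneg_left _ (by linarith)
      rw [← Finset.prod_sdiff hT']
      have e1 : ∏ p ∈ T \ T', gd (rho f) p ≤ 1 :=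
        Finset.prod_le_one (fun p hp => hg0 p (Finset.mem_sdiff.1 hp).1)
          (fun p hp => hg1 p (Finset.mem_sdiff.1 hp).1)
      have e2 : 0 ≤ ∏ p ∈ T', gd (rho f) p := Finset.prod_nonneg fun p hp => hg0 p (hT' hp)
      exact mul_le_of_le_one_left e2 e1
    have h7 : 0 ≤ N * ∏ p ∈ T, gd (rho f) p :=
      mul_nonneg (by linarith) (Finset.prod_nonneg hg0)
    have h8 : (((Finset.Ioc A B).filter (fun a : ℤ => (W : ℤ) ∣ a - r ∧
        ∀ p ∈ T, (p : ℤ) ∣ f.eval (a + s p))).card : ℝ) ≤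
        (((Finset.Ioc A B).filter (fun a : ℤ => (W : ℤ) ∣ a - r ∧
        ∀ p ∈ T', (p : ℤ) ∣ f.eval (a + s p))).card : ℝ) := by
      have : ((Finset.Ioc A B).filter (fun a : ℤ => (W : ℤ) ∣ a - r ∧
        ∀ p ∈ T, (p : ℤ) ∣ f.eval (a + s p))).card ≤
        ((Finset.Ioc A B).filter (fun a : ℤ => (W : ℤ) ∣ a - r ∧
        ∀ p ∈ T', (p : ℤ) ∣ f.eval (a + s p))).card := by
        apply Finset.card_le_card
        intro a ha
        rw [Finset.mem_filter] at ha ⊢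
        exact ⟨ha.1, ha.2.1, fun p hp => ha.2.2 p (hT' hp)⟩
      exact_mod_cast this
    have h9 : (0:ℝ) ≤ (((Finset.Ioc A B).filter (fun a : ℤ => (W : ℤ) ∣ a - r ∧
        ∀ p ∈ T, (p : ℤ) ∣ f.eval (a + s p))).card : ℝ) := Nat.cast_nonneg _
    rw [abs_le]
    constructor <;> linarith

end Pool.Agent.N737.GV
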