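import Pool.Agent.N737.GV.G6
import Pool.Agent.H474R2.PG.NoColl
import Pool.Agent.Y831.RC5.Abund5

set_option autoImplicit false
set_option linter.unusedSectionVars false
set_option linter.unusedVariables false

/-! # Frequency of long runs of arguments at which a polynomial has values with a small prime factor -/

namespace Pool.Agent.N737.GV

open Finset Polynomial Filter

open Pool.Agent.H474R2.PG (rho Sg PR)

open Pool.Agent.Y831.RC (ev_T5 q_tδ primorial_le_exp classes_cnt)

open scoped Classical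

/-- the integers `n` with `M ≤ n` and `n + F ≤ M + X` such that each of the values
`f (n + k)`, `1 ≤ k ≤ F`, has a prime factor `p ≤ y` -/
def VSet (f : ℤ[X]) (M X F y : ℝ) : Set ℤ :=
  {n : ℤ | M ≤ n ∧ (n : ℝ) + F ≤ M + X ∧
    ∀ k : ℤ, 1 ≤ k → (k : ℝ) ≤ F → ∃ p : ℕ, p.Prime ∧ (p : ℝ) ≤ y ∧ (p : ℤ) ∣ f.eval (n + k)}

theorem VSet_finite (f : ℤ[X]) (M X F y : ℝ) (hF : 0 ≤ F) : (VSet f M X F y).Finite := by
  apply (Set.finite_Icc ⌊M⌋ ⌈M + X⌉).subset
  rintro n ⟨h1, h2, -⟩
  constructor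
  · exact_mod_cast (Int.floor_le M).trans h1
  · have : (n : ℝ) ≤ M + X := by linarith
    exact_mod_cast this.trans (Int.le_ceil _)

theorem VSet_mono (f : ℤ[X]) (M X F y y' : ℝ) (h : y ≤ y') : VSet f M X F y ⊆ VSet f M X F y' := by
  rintro n ⟨h1, h2, h3⟩
  refine ⟨h1, h2, fun k hk1 hk2 => ?_⟩
  obtain ⟨p, hp, hp1, hp2⟩ := h3 k hk1 hk2
  exact ⟨p, hp, hp1.trans h, hp2⟩

/-- the positions surviving the small primes in the class `b` -/
noncomputable def Us (f : ℤ[X]) (H : ℕ) (F : ℝ) (b : ℕ) : Finset ℤ :=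
  (Icc (1:ℤ) ⌊F⌋).filter (fun a : ℤ => ∀ p ∈ Pool.Agent.H474R2.GE.SS H, ¬ (p : ℤ) ∣ f.eval ((b : ℤ) + a))

theorem class_lemma (f : ℤ[X]) (H : ℕ) (A' B' : ℤ) (b : ℕ)
    (M X F y₂ : ℝ) (hF : 0 ≤ F) (hH : (H : ℝ) ≤ y₂)
    (hA : ∀ a : ℤ, A' < a → a ≤ B' → M ≤ a ∧ (a : ℝ) + F ≤ M + X) (Φ v : ℝ) (hΦ : 0 ≤ Φ)
    (hcov : v ≤ ((((Ioc A' B').filter (fun a : ℤ => ((primorial H : ℕ) : ℤ) ∣ a - (b : ℤ))).filter
      (fun a : ℤ => ∀ k : Us f H F b, ∃ p : ℕ, p.Prime ∧ (p : ℝ) ≤ y₂ ∧
        (p : ℤ) ∣ f.eval (a + (k : ℤ)))).card : ℝ) * Φ) :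
    v ≤ ((((VSet_finite f M X F y₂ hF).toFinset).filter
      (fun n : ℤ => ((primorial H : ℕ) : ℤ) ∣ n - b)).card : ℝ) * Φ := by
  refine hcov.trans (mul_le_mul_of_nonneg_right ?_ hΦ)
  have : (((Ioc A' B').filter (fun a : ℤ => ((primorial H : ℕ) : ℤ) ∣ a - (b : ℤ))).filter
      (fun a : ℤ => ∀ k : Us f H F b, ∃ p : ℕ, p.Prime ∧ (p : ℝ) ≤ y₂ ∧
        (p : ℤ) ∣ f.eval (a + (k : ℤ)))).card ≤ (((VSet_finite f M X F y₂ hF).toFinset).filter
      (fun n : ℤ => ((primorial H : ℕ) : ℤ) ∣ n - b)).card := by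
    apply Finset.card_le_card
    intro a ha
    rw [Finset.mem_filter, Finset.mem_filter, Finset.mem_Ioc] at ha
    obtain ⟨⟨⟨h1, h2⟩, h3⟩, h4⟩ := ha
    obtain ⟨h5, h6⟩ := hA a h1 h2
    rw [Finset.mem_filter, Set.Finite.mem_toFinset]
    refine ⟨⟨h5, h6, fun k hk1 hk2 => ?_⟩, h3⟩
    by_cases hk : k ∈ Us f H F b
    · exact h4 ⟨k, hk⟩
    · unfold Us at hk
      rw [Finset.mem_filter, not_and] at hk
      have h7 := hk (Finset.mem_Icc.2 ⟨hk1, Int.le_floor.2 hk2⟩)
      push Not at h7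
      obtain ⟨p, hp, hpd⟩ := h7
      have hpp : p.Prime := (Finset.mem_filter.1 hp).2
      have hpH : p ≤ H := by
        have := Finset.mem_range.1 (Finset.mem_filter.1 hp).1
        omega
      refine ⟨p, hpp, le_trans (by exact_mod_cast hpH) hH, ?_⟩
      have h8 : (p : ℤ) ∣ a - (b : ℤ) := by
        refine dvd_trans ?_ h3
        have : p ∣ primorial H := (hpp.dvd_primorial_iff).2 hpH
        exact_mod_cast this
      have h9 := Polynomial.sub_dvd_eval_sub (a + k) ((b : ℤ) + k) f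
      have h10 : a + k - ((b : ℤ) + k) = a - b := by ring
      rw [h10] at h9
      have h11 := dvd_add (dvd_trans h8 h9) hpd
      rwa [sub_add_cancel] at h11
  exact_mod_cast this

/-- largeness conditions -/
theorem ev_G (t c ld Tn B d : ℝ) (ht : 0 < t) (ht8 : t ≤ 1 / 8) (hc : 0 < c) : ∃ L₀ : ℝ,
    ∀ L : ℝ, L₀ ≤ L →
    1 ≤ L ∧ 1 ≤ Real.log L ∧ 4 ≤ t / 8 * L ∧ Real.log L ≤ L ∧ 8 * ld / t ≤ Real.log L ∧ Tn ≤ L ∧
    B ≤ L ∧ d ≤ L ∧ 1 / c ≤ L ∧
    Real.log L / 2 ≤ Real.log (t / 8 * L - 1) ∧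
    8 * (L * Real.log L) ≤ Real.exp L ∧
    4 ≤ Real.exp (5 * t / 8 * L) := by
  have t1 := Real.tendsto_log_atTop
  have h0 : ∀ᶠ L : ℝ in atTop, max (max (max 1 Tn) (max B d)) (max (1 / c) (32 / t)) ≤ L :=
    eventually_ge_atTop _
  have h1 : ∀ᶠ L : ℝ in atTop, max 1 (8 * ld / t) ≤ Real.log L := t1.eventually_ge_atTop _
  have h5 : ∀ᶠ L : ℝ in atTop, 8 * (L * Real.log L) ≤ Real.exp L := by
    have e1 := (Real.isLittleO_pow_exp_atTop (n := 2)).def (show (0:ℝ) < 1 / 8 by positivity)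
    filter_upwards [e1, eventually_ge_atTop (1:ℝ)] with L hL hL1
    rw [Real.norm_of_nonneg (by positivity), Real.norm_of_nonneg (Real.exp_pos L).le] at hL
    have e2 : Real.log L ≤ L := (Real.log_le_sub_one_of_pos (by linarith)).trans (by linarith)
    have e3 : L * Real.log L ≤ L * L := mul_le_mul_of_nonneg_left e2 (by linarith)
    nlinarith
  have h6 : ∀ᶠ L : ℝ in atTop, 4 ≤ Real.exp (5 * t / 8 * L) := by
    have a0 : Tendsto (fun L : ℝ => 5 * t / 8 * L) atTop atTop :=
      Filter.Tendsto.const_mul_atTop (by positivity) Filter.tendsto_id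
    exact (Real.tendsto_exp_atTop.comp a0).eventually_ge_atTop 4
  have h7 : ∀ᶠ L : ℝ in atTop, Real.log L / 2 ≤ Real.log (t / 8 * L - 1) := by
    filter_upwards [eventually_ge_atTop (max (16 / t) ((16 / t) ^ 2))] with L hL
    have b1 : 16 / t ≤ L := (le_max_left _ _).trans hL
    have b2 : (16 / t) ^ 2 ≤ L := (le_max_right _ _).trans hL
    have b3 : 0 < 16 / t := by positivity
    have hL0 : 0 < L := by linarith
    have e1 : Real.log L / 2 = Real.log (Real.sqrt L) := by
      rw [Real.log_sqrt hL0.le]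
    rw [e1]
    apply Real.log_le_log (Real.sqrt_pos.2 hL0)
    have e2 : 16 / t ≤ Real.sqrt L := by
      apply Real.le_sqrt_of_sq_le b2
    have e3 : L = Real.sqrt L * Real.sqrt L := (Real.mul_self_sqrt hL0.le).symm
    have e4 : 16 ≤ t * Real.sqrt L := by
      rw [div_le_iff₀ ht] at e2
      linarith
    have e5 : 16 * Real.sqrt L ≤ t * L := by
      have := mul_le_mul_of_nonneg_right e4 (Real.sqrt_nonneg L)
      nlinarith
    have e6 : 2 ≤ t / 8 * L := by
      rw [div_le_iff₀ ht] at b1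
      linarith
    nlinarith
  obtain ⟨L₀, hL₀⟩ := Filter.eventually_atTop.1 (h0.and (h1.and (h5.and (h6.and h7))))
  refine ⟨L₀, fun L hL => ?_⟩
  obtain ⟨g0, g1, g5, g6, g7⟩ := hL₀ L hL
  have a1 : max (max 1 Tn) (max B d) ≤ L := (le_max_left _ _).trans g0
  have a2 : max (1 / c) (32 / t) ≤ L := (le_max_right _ _).trans g0
  have a3 : 1 ≤ L := (le_max_left _ _).trans ((le_max_left _ _).trans a1)
  have a4 : 32 / t ≤ L := (le_max_right _ _).trans a2
  refine ⟨a3, (le_max_left _ _).trans g1, ?_, ?_, (le_max_right _ _).trans g1,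
    (le_max_right _ _).trans ((le_max_left _ _).trans a1),
    (le_max_left _ _).trans ((le_max_right _ _).trans a1),
    (le_max_right _ _).trans ((le_max_right _ _).trans a1), (le_max_left _ _).trans a2, g7, g5, g6⟩
  · rw [div_le_iff₀ ht] at a4
    linarith
  · exact (Real.log_le_sub_one_of_pos (by linarith)).trans (by linarith)

/-- In every interval of length `X` there are at least `X exp (- T)` starting points of runs of
`c log X log T` arguments at which `f` has values with a prime factor at most `X ^ δ`, uniformly for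
`T₀ ≤ T ≤ log X`. -/
theorem voids (f : ℤ[X]) (hf : Irreducible f) (hd : 0 < f.natDegree) :
    ∃ c : ℝ, 0 < c ∧ ∀ δ : ℝ, 0 < δ →
    ∃ T₀ X₀ : ℝ, ∀ X : ℝ, X₀ ≤ X → ∀ T : ℝ, T₀ ≤ T → T ≤ Real.log X → ∀ M : ℝ,
      X * Real.exp (-T) ≤
        ((VSet f M X (c * (Real.log X * Real.log T)) (X ^ δ)).ncard : ℝ) := by
  obtain ⟨B, C₁, c₂, Y₀, H⟩ := md_rho f hf hd
  obtain ⟨A, hA, Tn, hNC⟩ := Pool.Agent.H474R2.PG.no_collision f hf hd
  have hC₁ := H.C0
  have hc₂ := H.c0
  have hAR : (2 : ℝ) ≤ A := by exact_mod_cast hA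
  set c : ℝ := c₂ * Real.exp (-(2 * C₁)) / (40 * A) with hc
  have hc0 : 0 < c := by positivity
  have hc1 : c ≤ 1 := by
    rw [hc, div_le_one (by positivity)]
    have h1 : Real.exp (-(2 * C₁)) ≤ 1 := by
      rw [Real.exp_le_one_iff]
      linarith
    have h2 := H.c1
    have h3 := Real.exp_pos (-(2 * C₁))
    nlinarith
  refine ⟨c, hc0, fun δ hδ => ?_⟩
  obtain ⟨t, ht, ht8, htδ⟩ : ∃ t : ℝ, 0 < t ∧ t ≤ 1 / 8 ∧ t ≤ δ :=
    ⟨min (1 / 8) δ, lt_min (by norm_num) hδ, min_le_left _ _, min_le_right _ _⟩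
  obtain ⟨e₀, X₁, hcov⟩ := cov5g H t ht ht8 A hA
  obtain ⟨T₀, hT₀⟩ := ev_T5 t (max e₀ 1) (Real.log (32 / 3)) ht (by linarith)
  obtain ⟨L₀, hL₀⟩ := ev_G t c (Real.log f.natDegree) Tn B f.natDegree ht ht8 hc0
  refine ⟨T₀, max X₁ (Real.exp L₀), fun X hX T hT hTL M => ?_⟩
  have hX1 : X₁ ≤ X := (le_max_left _ _).trans hX
  have hXe : Real.exp L₀ ≤ X := (le_max_right _ _).trans hX
  have hX0 : 0 < X := lt_of_lt_of_le (Real.exp_pos _) hXe
  have hLL : L₀ ≤ Real.log X := by
    rw [Real.le_log_iff_exp_le hX0]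
    exact hXe
  obtain ⟨g0, g1', g2, g3⟩ := hT₀ T hT
  have g1 : e₀ ≤ (1 - t) * Real.log T := (le_max_left _ _).trans g1'
  obtain ⟨k0, k1, k2, k3, k4, k5, k6, k7, k8, k9, k10, k11⟩ := hL₀ (Real.log X) hLL
  have hc5 := hcov X hX1 ((1 - t) * Real.log T) g1 (by
    apply mul_le_mul_of_nonneg_left _ (by linarith)
    exact Real.log_le_log (by linarith) hTL) ℤ
  have hXL : Real.exp (Real.log X) = X := Real.exp_log hX0
  set L := Real.log X with hL
  set l := Real.log L with hl
  set e := (1 - t) * Real.log T with he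
  have hL0 : 0 < L := by linarith
  have hl0 : 0 < l := by linarith
  have hlT0 : 0 ≤ Real.log T := Real.log_nonneg g0
  have hlTl : Real.log T ≤ l := Real.log_le_log (by linarith) hTL
  have hlog1 : 1 ≤ Real.log T := by
    have : 0 ≤ t * Real.log T := by positivity
    linarith only [this, g2]
  set F := c * (L * Real.log T) with hF
  have hF0 : 0 ≤ F := by positivity
  have hLl0 : 0 ≤ L * l := by positivity
  have hFLl : F ≤ L * l := by
    have e1 : L * Real.log T ≤ L * l := mul_le_mul_of_nonneg_left hlTl hL0.le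
    have e2 : 0 ≤ L * Real.log T := by positivity
    have e3 : c * (L * Real.log T) ≤ 1 * (L * Real.log T) :=
      mul_le_mul_of_nonneg_right hc1 e2
    rw [hF]
    linarith only [e1, e3]
  have hFL2 : F ≤ L ^ 2 := by
    have : L * l ≤ L * L := mul_le_mul_of_nonneg_left k3 hL0.le
    nlinarith
  have hF1 : 1 ≤ F := by
    have e1 : 1 ≤ c * L := by
      rw [div_le_iff₀ hc0] at k8
      linarith only [k8]
    have e2 : c * L * 1 ≤ c * L * Real.log T := mul_le_mul_of_nonneg_left hlog1 (by positivity)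
    rw [hF]
    nlinarith only [e1, e2]
  -- the small primes
  set x := t / 8 * L with hx
  have hx0 : 0 ≤ x := by positivity
  set Hh : ℕ := ⌊x⌋₊ with hHh
  have hHx : (Hh : ℝ) ≤ x := Nat.floor_le hx0
  have hHx' : x - 1 < Hh := by
    have := Nat.lt_floor_add_one x
    linarith
  have hH3 : 3 ≤ Hh := by
    have : (3:ℝ) < Hh := by linarith only [hHx', k2]
    exact_mod_cast this.le
  have hlogH : l / 2 ≤ Real.log Hh := by
    refine k9.trans ?_
    apply Real.log_le_log (by linarith only [k2]) hHx'.le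
  have hlogH0 : 0 < Real.log Hh := by linarith only [hlogH, hl0]
  set P : ℕ := primorial Hh with hP
  have hPpos : 0 < P := primorial_pos _
  have hPr : (0:ℝ) < P := by exact_mod_cast hPpos
  have hPx : (P:ℝ) ≤ Real.exp (t / 4 * L) := by
    refine (primorial_le_exp x hx0).trans ?_
    apply Real.exp_le_exp.2
    rw [hx]
    linarith only []
  -- the interval
  set A' : ℤ := ⌈M⌉ - 1 with hA'
  set B' : ℤ := ⌊M + X - F⌋ with hB'
  have hc1' := Int.ceil_lt_add_one M
  have hc2' := Int.le_ceil M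
  have hf1' := Int.floor_le (M + X - F)
  have hf2' := Int.lt_floor_add_one (M + X - F)
  have hBA1 : X - F - 1 ≤ (B' : ℝ) - A' := by
    rw [hA', hB']
    push_cast
    linarith only [hc1', hf2']
  have hBA2 : (B' : ℝ) - A' ≤ X := by
    rw [hA', hB']
    push_cast
    linarith only [hc2', hf1', hF1]
  have hFX : 8 * F ≤ X := by
    rw [← hXL]
    linarith only [hFLl, k10]
  have hX8 : 8 ≤ X := by linarith only [hFX, hF1]
  have hBA3 : X / 2 ≤ (B' : ℝ) - A' := by linarith only [hBA1, hFX, hX8]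
  have hABle : A' ≤ B' := by
    have : (A' : ℝ) ≤ B' := by linarith only [hBA3, hX8]
    exact_mod_cast this
  have hrange : ∀ a : ℤ, A' < a → a ≤ B' → M ≤ a ∧ (a : ℝ) + F ≤ M + X := by
    intro a ha1 ha2
    have h1 : (⌈M⌉ : ℝ) ≤ a := by
      have : ⌈M⌉ ≤ a := by omega
      exact_mod_cast this
    have h2 : (a : ℝ) ≤ (⌊M + X - F⌋ : ℝ) := by exact_mod_cast ha2
    constructor
    · linarith only [h1, hc2']
    · linarith only [h2, hf1']
  set N : ℝ := ((B' : ℝ) - A') / P with hN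
  set Err : ℝ := 2 * Real.exp (t / 8 * L) with hErr
  have hErr1 : 1 ≤ Err := by
    have := Real.one_le_exp (show 0 ≤ t / 8 * L by positivity)
    rw [hErr]
    linarith only [this]
  have hNlow : 1 / 2 * Real.exp ((1 - t / 4) * L) ≤ N := by
    rw [hN, le_div_iff₀ hPr]
    have e3 : Real.exp ((1 - t / 4) * L) * Real.exp (t / 4 * L) = X := by
      rw [← Real.exp_add, ← hXL]
      congr 1
      ring
    have e4 : Real.exp ((1 - t / 4) * L) * P ≤ X := by
      rw [← e3]
      exact mul_le_mul_of_nonneg_left hPx (Real.exp_pos _).le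
    linarith only [e4, hBA3]
  have hABN : Err * Real.exp ((1 - t) * L) ≤ N := by
    refine le_trans ?_ hNlow
    have e1 : Real.exp ((1 - t / 4) * L) = Real.exp (t / 8 * L) * Real.exp ((1 - t) * L) *
        Real.exp (5 * t / 8 * L) := by
      rw [← Real.exp_add, ← Real.exp_add]
      congr 1
      ring
    rw [hErr, e1]
    have e2 : 0 ≤ Real.exp (t / 8 * L) * Real.exp ((1 - t) * L) := by positivity
    have e3 := mul_le_mul_of_nonneg_left k11 e2
    linarith only [e3]
  have hN1 : 1 ≤ N := by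
    refine le_trans ?_ hABN
    have := Real.one_le_exp (show 0 ≤ (1 - t) * L by
      have : 0 ≤ 1 - t := by linarith only [ht8]
      positivity)
    nlinarith only [this, hErr1]
  have hNX : N ≤ Real.exp L := by
    rw [hXL]
    refine le_trans ?_ hBA2
    rw [hN]
    apply div_le_self (by linarith only [hBA3, hX8])
    exact_mod_cast hPpos
  -- sizes of the sieving primes
  have he1 : 1 ≤ e := g2
  have he0 : 0 < 100 * e := by linarith only [he1]
  set z : ℝ := Real.exp (t ^ 2 * L / (100 * e)) with hz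
  have hz1 : 1 ≤ z := Real.one_le_exp (by positivity)
  have hlz : Real.log z ≤ L := by
    rw [hz, Real.log_exp, div_le_iff₀ he0]
    have e1 : t ^ 2 ≤ 100 * e := by nlinarith only [ht8, he1, ht]
    have e2 := mul_le_mul_of_nonneg_right e1 hL0.le
    linarith only [e2]
  set w : ℝ := L ^ A with hw
  have hwL : L ≤ w := by
    calc L = L ^ 1 := (pow_one L).symm
      _ ≤ L ^ A := pow_le_pow_right₀ k0 (by omega)
  have hLx : x < L := by
    rw [hx]
    nlinarith only [ht8, hL0]
  have hXδ : X ^ δ = Real.exp (δ * L) := by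
    rw [Real.rpow_def_of_pos hX0, mul_comm]
  have hzδ : z ≤ X ^ δ := by
    rw [hXδ]
    apply Real.exp_le_exp.2
    rw [div_le_iff₀ he0]
    have e1 : t ^ 2 ≤ δ * (100 * e) := q_tδ ht ht8 htδ g2
    have e2 := mul_le_mul_of_nonneg_right e1 hL0.le
    linarith only [e2]
  have hxy : x ≤ X ^ δ := by
    rw [hXδ]
    have e1 := Real.add_one_le_exp (δ * L)
    have e2 : x ≤ δ * L := by
      rw [hx]
      apply mul_le_mul_of_nonneg_right _ hL0.le
      linarith only [htδ, ht]
    linarith only [e1, e2]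
  -- good classes
  have hfloorF : ((Icc (1:ℤ) ⌊F⌋).card : ℝ) ≤ F := by
    rw [Int.card_Icc]
    have h1 : 0 ≤ ⌊F⌋ := Int.floor_nonneg.2 hF0
    have h2 : (⌊F⌋ + 1 - 1).toNat = ⌊F⌋.toNat := by
      congr 1
      ring
    rw [h2]
    have h3 : ((⌊F⌋.toNat : ℕ) : ℝ) = (⌊F⌋ : ℝ) := by
      have : ((⌊F⌋.toNat : ℕ) : ℤ) = ⌊F⌋ := Int.toNat_of_nonneg h1
      exact_mod_cast this
    rw [h3]
    exact Int.floor_le F
  have hgood := Pool.Agent.H474R2.GE.good_classes f Hh (Icc (1:ℤ) ⌊F⌋) (Real.exp C₁) F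
    (Real.exp_pos _) (by linarith only [hF1])
    (Pool.Agent.H474R2.GE.prod_le f C₁ H.mer Hh hH3) hfloorF
  set G : Finset ℕ := (range (primorial Hh)).filter (fun b : ℕ =>
      (((Icc (1:ℤ) ⌊F⌋).filter (fun a : ℤ => ∀ p ∈ Pool.Agent.H474R2.GE.SS Hh,
        ¬ (p : ℤ) ∣ f.eval ((b : ℤ) + a))).card : ℝ) *
        Real.log Hh ≤ 2 * (Real.exp C₁ * F)) with hG
  set Φ : ℝ := Real.exp (e ^ 2 * Real.exp e) with hΦ
  have hΦ1 : 1 ≤ Φ := Real.one_le_exp (by positivity)
  -- survivors
  have hsurv : ∀ b ∈ G, ((Us f Hh F b).card : ℝ) ≤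
      (1 / 2 - 3 * t) * (e * L * Vg (rho f) c₂ w) := by
    intro b hb
    have h1 : ((Us f Hh F b).card : ℝ) * Real.log Hh ≤ 2 * (Real.exp C₁ * F) :=
      (Finset.mem_filter.1 hb).2
    have hw3 : 3 ≤ w := by
      have : 4 ≤ t / 8 * L := k2
      nlinarith only [this, ht8, hwL, hL0]
    have h2 := (H.Vbounds w hw3).1
    have hlw : Real.log w = A * l := by rw [hw, Real.log_pow]
    rw [hlw] at h2
    have h3 : ((Us f Hh F b).card : ℝ) * (l / 2) ≤ 2 * (Real.exp C₁ * F) :=
      (mul_le_mul_of_nonneg_left hlogH (Nat.cast_nonneg _)).trans h1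
    have hA0 : (0:ℝ) < A := by linarith only [hAR]
    have h4 : c₂ * Real.exp (-C₁) / (A * l) ≤ Vg (rho f) c₂ w := by
      rw [div_le_iff₀ (by positivity)]
      exact h2
    have h5 : ((Us f Hh F b).card : ℝ) ≤ 4 * Real.exp C₁ * F / l := by
      rw [le_div_iff₀ hl0]
      linarith only [h3]
    refine h5.trans ?_
    have h6 : 4 * Real.exp C₁ * F / l =
        (1 / 10 * (L * Real.log T)) * (c₂ * Real.exp (-C₁) / (A * l)) := by
      rw [hF, hc]
      have e1 : Real.exp (-(2 * C₁)) = Real.exp (-C₁) * Real.exp (-C₁) := by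
        rw [← Real.exp_add]
        congr 1
        ring
      have e2 : Real.exp C₁ * Real.exp (-C₁) = 1 := by rw [← Real.exp_add]; simp
      rw [e1]
      have hA1 : (A:ℝ) ≠ 0 := hA0.ne'
      have hl1 : l ≠ 0 := hl0.ne'
      have e3 : 4 * Real.exp C₁ * (c₂ * (Real.exp (-C₁) * Real.exp (-C₁)) / (40 * A) *
          (L * Real.log T)) / l = (Real.exp C₁ * Real.exp (-C₁)) *
          ((1 / 10 * (L * Real.log T)) * (c₂ * Real.exp (-C₁) / (A * l))) := by
        field_simp
        ring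
      rw [e3, e2, one_mul]
    rw [h6]
    have h7 : 1 / 10 * (L * Real.log T) ≤ (1 / 2 - 3 * t) * (e * L) := by
      have e1 : (1 / 10 : ℝ) ≤ (1 / 2 - 3 * t) * (1 - t) := by nlinarith only [ht8, ht]
      have e2 : 0 ≤ L * Real.log T := by positivity
      have e3 := mul_le_mul_of_nonneg_right e1 e2
      rw [he]
      linarith only [e3]
    have h8 : 0 ≤ c₂ * Real.exp (-C₁) / (A * l) := by positivity
    calc 1 / 10 * (L * Real.log T) * (c₂ * Real.exp (-C₁) / (A * l))
        ≤ (1 / 2 - 3 * t) * (e * L) * (c₂ * Real.exp (-C₁) / (A * l)) :=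
          mul_le_mul_of_nonneg_right h7 h8
      _ ≤ (1 / 2 - 3 * t) * (e * L) * Vg (rho f) c₂ w := by
          apply mul_le_mul_of_nonneg_left h4
          have : 0 ≤ 1 / 2 - 3 * t := by linarith only [ht8]
          positivity
      _ = _ := by ring
  -- one class
  have hclass : ∀ b ∈ G, 3 / 8 * N ≤
      ((((VSet_finite f M X F (X ^ δ) hF0).toFinset).filter
        (fun n : ℤ => ((primorial Hh : ℕ) : ℤ) ∣ n - b)).card : ℝ) * Φ := by
    intro b hb
    refine class_lemma f Hh A' B' b M X F (X ^ δ) hF0 (hHx.trans hxy) hrange Φ (3 / 8 * N)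
      (by linarith only [hΦ1]) ?_
    rcases (Us f Hh F b).eq_empty_or_nonempty with hemp | hne
    · have hcnt := Pool.Agent.H256R2.SC.LG.count_Ioc A' B' hABle P hPpos b
      have h1 := (abs_le.1 hcnt).1
      have h2 : ((Ioc A' B').filter (fun a : ℤ => ((primorial Hh : ℕ) : ℤ) ∣ a - (b : ℤ))).filter
          (fun a : ℤ => ∀ k : Us f Hh F b, ∃ p : ℕ, p.Prime ∧ (p : ℝ) ≤ X ^ δ ∧
          (p : ℤ) ∣ f.eval (a + (k : ℤ))) =
          (Ioc A' B').filter (fun a : ℤ => ((primorial Hh : ℕ) : ℤ) ∣ a - (b : ℤ)) := by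
        apply Finset.filter_true_of_mem
        rintro a _ ⟨k, hk⟩
        rw [hemp] at hk
        exact absurd hk (Finset.notMem_empty _)
      rw [h2]
      have h3 : N - 1 ≤ (((Ioc A' B').filter
          (fun a : ℤ => ((primorial Hh : ℕ) : ℤ) ∣ a - (b : ℤ))).card : ℝ) := by
        rw [hN]
        linarith only [h1]
      have h4 : 4 ≤ N := by
        refine le_trans ?_ hABN
        have e1 := Real.one_le_exp (show 0 ≤ t / 8 * L by positivity)
        have e2 := Real.add_one_le_exp ((1 - t) * L)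
        have e3 : 4 ≤ t / 8 * L := k2
        have e4 : 4 ≤ (1 - t) * L := by nlinarith only [e3, ht8, hL0, ht]
        have e5 : 4 ≤ Real.exp ((1 - t) * L) := by linarith only [e2, e4]
        rw [hErr]
        nlinarith only [e1, e5]
      have h5 : 3 / 8 * N ≤ N - 1 := by linarith only [h4]
      have h6 : 0 ≤ N - 1 := by linarith only [h4]
      calc 3 / 8 * N ≤ N - 1 := h5
        _ = (N - 1) * 1 := (mul_one _).symm
        _ ≤ _ := mul_le_mul h3 hΦ1 zero_le_one (Nat.cast_nonneg _)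
    · haveI : Nonempty (Us f Hh F b) := hne.to_subtype
      set hit : ℕ → ℤ → (Us f Hh F b) → Prop :=
        fun p a k => (p : ℤ) ∣ f.eval (a + (k : ℤ)) with hhit
      have hT2 : ∀ k : (Us f Hh F b), 1 ≤ (k : ℤ) ∧ ((k : ℤ) : ℝ) ≤ F := by
        intro k
        have h1 := (Finset.mem_Icc.1 (Finset.mem_filter.1 k.2).1)
        exact ⟨h1.1, Int.le_floor.1 h1.2⟩
      have huniq : ∀ p : ℕ, p.Prime → w < p → ∀ a (k k' : (Us f Hh F b)), (k : ℤ) < (k' : ℤ) →
          hit p a k → hit p a k' → False := by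
        intro p hp hpA a k k' hkk h1 h2
        obtain ⟨u1, u2⟩ := hT2 k
        obtain ⟨u3, u4⟩ := hT2 k'
        have h3 := hNC L k5 p hp hpA (((k' : ℤ) - (k : ℤ)).toNat) (by omega) (by
          have e0 : (((((k' : ℤ) - (k : ℤ)).toNat : ℕ)) : ℤ) = (k' : ℤ) - (k : ℤ) :=
            Int.toNat_of_nonneg (by omega)
          have e1 : (((((k' : ℤ) - (k : ℤ)).toNat : ℕ)) : ℝ) = ((k' : ℤ) : ℝ) - ((k : ℤ) : ℝ) := by
            exact_mod_cast e0
          rw [e1]
          have e2 : (1:ℝ) ≤ ((k : ℤ) : ℝ) := by exact_mod_cast u1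
          linarith only [e2, u4, hFL2]) (a + (k : ℤ)) h1
        apply h3
        have e2 : a + (k : ℤ) + (((((k' : ℤ) - (k : ℤ)).toNat : ℕ)) : ℤ) = a + (k' : ℤ) := by
          rw [Int.toNat_of_nonneg (by omega)]
          ring
        rw [e2]
        exact h2
      have hfin := hc5 (Us f Hh F b) (by rw [Fintype.card_coe]; exact hsurv b hb) hit
        (by
          intro p hp hpA _ _ a k k' h1 h2
          rcases lt_trichotomy (k : ℤ) (k' : ℤ) with h | h | h
          · exact (huniq p hp hpA a k k' h h1 h2).elim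
          · exact Subtype.ext h
          · exact (huniq p hp hpA a k' k h h2 h1).elim)
        ((Ioc A' B').filter (fun a : ℤ => ((primorial Hh : ℕ) : ℤ) ∣ a - (b : ℤ))) N Err hErr1
        (by
          intro T' s hT'
          have h1 := count_all f f.natDegree hd w z (k7.trans hwL)
            (lt_of_lt_of_le (by
              have : 4 ≤ t / 8 * L := k2
              nlinarith only [this, ht8, hL0]) hwL) hz1 A' B' hABle P hPpos b N
            (t / 8 * L) hN hN1 (by
              have hlw : Real.log w = A * l := by rw [hw, Real.log_pow]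
              have hNz : Real.log (N * z) ≤ 2 * L := by
                rw [Real.log_mul (by linarith only [hN1]) (by linarith only [hz1])]
                have : Real.log N ≤ L := by
                  rw [Real.log_le_iff_le_exp (by linarith only [hN1])]
                  exact hNX
                linarith only [this, hlz]
              have hNz0 : 0 ≤ Real.log (N * z) := Real.log_nonneg (by nlinarith only [hN1, hz1])
              have hd1 : (1:ℝ) ≤ f.natDegree := by exact_mod_cast hd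
              have hld : 0 ≤ Real.log f.natDegree := Real.log_nonneg hd1
              rw [hlw, div_mul_eq_mul_div, div_le_iff₀ (by positivity)]
              have e1 : Real.log f.natDegree * Real.log (N * z) ≤
                  Real.log f.natDegree * (2 * L) := mul_le_mul_of_nonneg_left hNz hld
              have e2 : 8 * Real.log f.natDegree ≤ l * t := by
                rw [div_le_iff₀ ht] at k4
                exact k4
              have e3 : t / 8 * L * (2 * l) ≤ t / 8 * L * (A * l) := by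
                apply mul_le_mul_of_nonneg_left _ (by positivity)
                exact mul_le_mul_of_nonneg_right hAR hl0.le
              have e4 := mul_le_mul_of_nonneg_right e2 hL0.le
              linarith only [e1, e3, e4])
            T' (fun p hp => by
              obtain ⟨v1, v2, v3, v4⟩ := hT' p hp
              have v5 : L < p := lt_of_le_of_lt hwL v2
              refine ⟨v1, ?_, v2, v3, ?_⟩
              · intro hdv
                have h6 := (v1.dvd_primorial_iff).1 hdv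
                have h7 : (p : ℝ) ≤ Hh := by exact_mod_cast h6
                linarith only [h7, hHx, hLx, v5]
              · apply H.rd p v1
                have : (B:ℝ) < p := by linarith only [k6, v5]
                exact_mod_cast this) (fun p => ((s p : (Us f Hh F b)) : ℤ))
          have h2 : ((Ioc A' B').filter (fun a : ℤ => ((primorial Hh : ℕ) : ℤ) ∣ a - (b : ℤ))).filter
              (fun a => ∀ p ∈ T', hit p a (s p)) =
              (Finset.Ioc A' B').filter (fun a : ℤ => (P : ℤ) ∣ a - (b : ℤ) ∧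
                ∀ p ∈ T', (p : ℤ) ∣ f.eval (a + ((s p : (Us f Hh F b)) : ℤ))) := by
            rw [Finset.filter_filter]
          rw [← h2] at h1
          convert h1 using 6) hABN
      refine hfin.trans ?_
      apply mul_le_mul_of_nonneg_right _ (by linarith only [hΦ1])
      have : (((Ioc A' B').filter (fun a : ℤ => ((primorial Hh : ℕ) : ℤ) ∣ a - (b : ℤ))).filter
          (fun x => ∀ k : (Us f Hh F b), ∃ p : ℕ, p.Prime ∧ L ^ A < p ∧
            (p : ℝ) ≤ Real.exp (t ^ 2 * L / (100 * e)) ∧ hit p x k)).card ≤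
          (((Ioc A' B').filter (fun a : ℤ => ((primorial Hh : ℕ) : ℤ) ∣ a - (b : ℤ))).filter
          (fun a : ℤ => ∀ k : Us f Hh F b, ∃ p : ℕ, p.Prime ∧ (p : ℝ) ≤ X ^ δ ∧
            (p : ℤ) ∣ f.eval (a + (k : ℤ)))).card := by
        apply Finset.card_le_card
        intro a ha
        rw [Finset.mem_filter] at ha ⊢
        refine ⟨ha.1, fun k => ?_⟩
        obtain ⟨p, hp, _, hp2, hp3⟩ := ha.2 k
        exact ⟨p, hp, hp2.trans hzδ, hp3⟩
      exact_mod_cast this
  -- all classes
  set R : Finset ℤ := (VSet_finite f M X F (X ^ δ) hF0).toFinset with hR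
  have hfinal := classes_cnt R P hPpos G (Finset.filter_subset _ _) _ _ hclass
    (by linarith only [hΦ1])
  have hcardR : (R.card : ℝ) = ((VSet f M X F (X ^ δ)).ncard : ℝ) := by
    rw [hR, Set.ncard_eq_toFinset_card _ (VSet_finite f M X F (X ^ δ) hF0)]
  rw [hcardR] at hfinal
  have h1 : 3 / 32 * X ≤ G.card * (3 / 8 * N) := by
    have e1 := mul_le_mul_of_nonneg_right hgood (show 0 ≤ 3 / 8 * N by linarith only [hN1])
    refine le_trans ?_ e1
    have e2 : (P : ℝ) / 2 * (3 / 8 * N) = 3 / 16 * ((B' : ℝ) - A') := by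
      rw [hN]
      field_simp
      ring
    rw [← hP, e2]
    linarith only [hBA3]
  have h2 : 3 / 32 * X ≤ ((VSet f M X F (X ^ δ)).ncard : ℝ) * Φ := h1.trans hfinal
  have h3 : X * Real.exp (-T) * Φ ≤ 3 / 32 * X := by
    have e1 : Real.exp (-T) * Φ ≤ 3 / 32 := by
      rw [hΦ, ← Real.exp_add]
      have e2 : -T + e ^ 2 * Real.exp e ≤ -Real.log (32 / 3) := by linarith only [g3]
      refine (Real.exp_le_exp.2 e2).trans (le_of_eq ?_)
      rw [Real.exp_neg, Real.exp_log (by norm_num)]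
      norm_num
    calc X * Real.exp (-T) * Φ = (Real.exp (-T) * Φ) * X := by ring
      _ ≤ 3 / 32 * X := mul_le_mul_of_nonneg_right e1 hX0.le
  exact le_of_mul_le_mul_right (h3.trans h2) (by linarith only [hΦ1])

end Pool.Agent.N737.GV
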