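import Pool.Agent.N737.GV.G7
import Pool.Agent.H474R2.PG.Growth

set_option autoImplicit false

/-! # Consequences: nonconstant polynomials, prime values, error terms -/

namespace Pool.Agent.N737.GV

open Finset Polynomial MeasureTheory

open scoped Classical

theorem exists_irred_factor (f : ℤ[X]) (hd : 0 < f.natDegree) :
    ∃ g : ℤ[X], Irreducible g ∧ 0 < g.natDegree ∧ g ∣ f := by
  have h1 : ¬ IsUnit f.primPart := by
    intro h
    have h2 := natDegree_eq_zero_of_isUnit h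
    rw [natDegree_primPart] at h2
    omega
  have h0 : f.primPart ≠ 0 := f.isPrimitive_primPart.ne_zero
  obtain ⟨g, hg, hgf⟩ := WfDvdMonoid.exists_irreducible_factor h1 h0
  refine ⟨g, hg, ?_, hgf.trans f.primPart_dvd⟩
  by_contra h
  have h2 : g.natDegree = 0 := by omega
  obtain ⟨a, rfl⟩ := natDegree_eq_zero.1 h2
  have h3 : IsUnit a := f.isPrimitive_primPart a hgf
  exact hg.not_isUnit (isUnit_C.2 h3)

theorem voids_all (f : ℤ[X]) (hd : 0 < f.natDegree) :
    ∃ c : ℝ, 0 < c ∧ ∀ δ : ℝ, 0 < δ →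
    ∃ T₀ X₀ : ℝ, ∀ X : ℝ, X₀ ≤ X → ∀ T : ℝ, T₀ ≤ T → T ≤ Real.log X → ∀ M : ℝ,
      X * Real.exp (-T) ≤
        ((VSet f M X (c * (Real.log X * Real.log T)) (X ^ δ)).ncard : ℝ) := by
  obtain ⟨g, hg, hgd, hgf⟩ := exists_irred_factor f hd
  obtain ⟨c, hc, h⟩ := voids g hg hgd
  refine ⟨c, hc, fun δ hδ => ?_⟩
  obtain ⟨T₀, X₀, h2⟩ := h δ hδ
  refine ⟨max T₀ 1, max X₀ 1, fun X hX T hT hTX M => ?_⟩
  have hT1 : 1 ≤ T := (le_max_right _ _).trans hT
  have hX1 : 1 ≤ X := (le_max_right _ _).trans hX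
  have hF : 0 ≤ c * (Real.log X * Real.log T) :=
    mul_nonneg hc.le (mul_nonneg (Real.log_nonneg hX1) (Real.log_nonneg hT1))
  refine (h2 X ((le_max_left _ _).trans hX) T ((le_max_left _ _).trans hT) hTX M).trans ?_
  have : (VSet g M X (c * (Real.log X * Real.log T)) (X ^ δ)).ncard ≤
      (VSet f M X (c * (Real.log X * Real.log T)) (X ^ δ)).ncard := by
    apply Set.ncard_le_ncard _ (VSet_finite f M X _ _ hF)
    rintro n ⟨h3, h4, h5⟩
    refine ⟨h3, h4, fun k hk1 hk2 => ?_⟩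
    obtain ⟨p, hp, hp1, hp2⟩ := h5 k hk1 hk2
    exact ⟨p, hp, hp1, hp2.trans (eval_dvd hgf)⟩
  exact_mod_cast this

/-- a nonconstant polynomial is at least `m / 2` in absolute value at large `m` -/
theorem growth_abs (f : ℤ[X]) (hd : 0 < f.natDegree) :
    ∃ x₀ : ℤ, ∀ x : ℤ, x₀ ≤ x → x ≤ 2 * |f.eval x| := by
  have hf : f ≠ 0 := by rintro rfl; simp at hd
  rcases lt_trichotomy 0 f.leadingCoeff with h | h | h
  · obtain ⟨x₀, h1⟩ := Pool.Agent.H474R2.PG.growth f hd h
    exact ⟨x₀, fun x hx => (h1 x hx).trans (by linarith [le_abs_self (f.eval x)])⟩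
  · exact absurd h.symm (leadingCoeff_ne_zero.2 hf)
  · obtain ⟨x₀, h1⟩ := Pool.Agent.H474R2.PG.growth (-f) (by simpa using hd)
      (by rw [leadingCoeff_neg]; omega)
    refine ⟨x₀, fun x hx => (h1 x hx).trans ?_⟩
    rw [eval_neg]
    linarith [neg_le_abs (f.eval x)]

/-- the number of `1 ≤ m ≤ N` with `|f m|` prime -/
def PF (f : ℤ[X]) (N : ℕ) : ℕ := ((Icc 1 N).filter (fun m : ℕ => (f.eval (m : ℤ)).natAbs.Prime)).card

lemma PF_eq_of_gap (f : ℤ[X]) {a b : ℕ} (hab : a ≤ b)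
    (h : ∀ n : ℕ, a < n → n ≤ b → ¬ (f.eval (n : ℤ)).natAbs.Prime) : PF f b = PF f a := by
  unfold PF
  congr 1
  ext n
  simp only [mem_filter, mem_Icc]
  constructor
  · rintro ⟨⟨h1, h2⟩, h3⟩
    refine ⟨⟨h1, ?_⟩, h3⟩
    by_contra h4
    exact h n (by omega) (by omega) h3
  · rintro ⟨⟨h1, h2⟩, h3⟩
    exact ⟨⟨h1, by omega⟩, h3⟩

lemma L_int {a b : ℝ} (ha : 2 ≤ a) (hb : 2 ≤ b) :
    IntervalIntegrable (fun t : ℝ => 1 / Real.log t) volume a b := by
  apply ContinuousOn.intervalIntegrable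
  intro t ht
  have ht2 : 2 ≤ t := by
    rcases le_total a b with h | h
    · rw [Set.uIcc_of_le h] at ht; linarith [ht.1]
    · rw [Set.uIcc_of_ge h] at ht; linarith [ht.1]
  have hl : 0 < Real.log t := Real.log_pos (by linarith)
  apply ContinuousAt.continuousWithinAt
  exact continuousAt_const.div (Real.continuousAt_log (by linarith)) hl.ne'

lemma L_sub {a b : ℝ} (ha : 2 ≤ a) (hab : a ≤ b) : (b - a) / Real.log b ≤
    (∫ t in (2 : ℝ)..b, 1 / Real.log t) - ∫ t in (2 : ℝ)..a, 1 / Real.log t := by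
  rw [intervalIntegral.integral_interval_sub_left (L_int le_rfl (ha.trans hab)) (L_int le_rfl ha)]
  have h1 : (b - a) / Real.log b = ∫ _t in a..b, 1 / Real.log b := by
    rw [intervalIntegral.integral_const, smul_eq_mul]; ring
  rw [h1]
  apply intervalIntegral.integral_mono_on hab (by simp) (L_int ha (ha.trans hab))
  intro t ht
  have ht0 : 2 ≤ t := ha.trans ht.1
  have hl : 0 < Real.log t := Real.log_pos (by linarith)
  exact one_div_le_one_div_of_le hl (Real.log_le_log (by linarith) ht.2)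

/-- the starting points of long runs of non-prime values -/
noncomputable def NSet (f : ℤ[X]) (M : ℕ) (X F : ℝ) : Finset ℕ :=
  (Icc M (M + ⌊X⌋₊)).filter (fun n : ℕ => (n : ℝ) + F ≤ M + X ∧
    ∀ k : ℕ, 1 ≤ k → (k : ℝ) ≤ F → ¬ (f.eval ((n + k : ℕ) : ℤ)).natAbs.Prime)

theorem nonprime_runs (f : ℤ[X]) (hd : 0 < f.natDegree) :
    ∃ c : ℝ, 0 < c ∧ ∃ T₀ X₀ : ℝ, ∀ X : ℝ, X₀ ≤ X → ∀ T : ℝ, T₀ ≤ T → T ≤ Real.log X →
      ∀ M : ℕ, X ≤ M → X * Real.exp (-T) ≤ ((NSet f M X (c * (Real.log X * Real.log T))).card : ℝ) := by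
  obtain ⟨c, hc, h⟩ := voids_all f hd
  obtain ⟨T₀, X₀, h2⟩ := h (1 / 2) (by norm_num)
  obtain ⟨x₀, hx₀⟩ := growth_abs f hd
  refine ⟨c, hc, max T₀ 1, max X₀ (max 17 x₀), fun X hX T hT hTX M hM => ?_⟩
  have hT1 : 1 ≤ T := (le_max_right _ _).trans hT
  have hX17 : 17 ≤ X := (le_max_left _ _).trans ((le_max_right _ _).trans hX)
  have hXx : (x₀ : ℝ) ≤ X := (le_max_right _ _).trans ((le_max_right _ _).trans hX)
  have hX1 : 1 ≤ X := by linarith
  have hF : 0 ≤ c * (Real.log X * Real.log T) :=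
    mul_nonneg hc.le (mul_nonneg (Real.log_nonneg hX1) (Real.log_nonneg hT1))
  refine (h2 X ((le_max_left _ _).trans hX) T ((le_max_left _ _).trans hT) hTX M).trans ?_
  set F := c * (Real.log X * Real.log T) with hFd
  have hfin := VSet_finite f M X F (X ^ (1 / 2 : ℝ)) hF
  have : (VSet f M X F (X ^ (1 / 2 : ℝ))).ncard ≤ (NSet f M X F).card := by
    have e1 : VSet f M X F (X ^ (1 / 2 : ℝ)) ⊆ ((NSet f M X F).image (fun n : ℕ => (n : ℤ)) : Finset ℤ) := by
      rintro n ⟨h3, h4, h5⟩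
      have hMn : (M : ℤ) ≤ n := by exact_mod_cast h3
      lift n to ℕ using (by have := Int.natCast_nonneg M; omega)
      rw [Finset.mem_coe, Finset.mem_image]
      refine ⟨n, ?_, rfl⟩
      rw [NSet, Finset.mem_filter, Finset.mem_Icc]
      have h6 : (n : ℝ) + F ≤ M + X := by simpa using h4
      refine ⟨⟨by exact_mod_cast hMn, ?_⟩, h6, ?_⟩
      · have h7 : (n : ℝ) - M ≤ X := by linarith
        have h8 : n - M ≤ ⌊X⌋₊ := by
          apply Nat.le_floor
          have : M ≤ n := by exact_mod_cast hMn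
          rw [Nat.cast_sub this]
          exact h7
        omega
      · intro k hk1 hk2 hpr
        obtain ⟨p, hp, hp1, hp2⟩ := h5 (k : ℤ) (by exact_mod_cast hk1) (by exact_mod_cast hk2)
        have h9 : p ∣ (f.eval ((n + k : ℕ) : ℤ)).natAbs := by
          have e2 : (p : ℤ) ∣ f.eval ((n + k : ℕ) : ℤ) := by
            rw [Nat.cast_add]
            exact hp2
          exact Int.natCast_dvd.1 e2
        have h10 := (Nat.prime_dvd_prime_iff_eq hp hpr).1 h9
        have hMn' : (M : ℝ) ≤ n := by exact_mod_cast hMn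
        have h11 : x₀ ≤ ((n + k : ℕ) : ℤ) := by
          have : (x₀ : ℝ) ≤ ((n + k : ℕ) : ℝ) := by
            push_cast
            have : (0 : ℝ) ≤ k := Nat.cast_nonneg k
            linarith
          exact_mod_cast this
        have h12 := hx₀ _ h11
        rw [Int.abs_eq_natAbs, ← h10] at h12
        have h13 : ((n + k : ℕ) : ℝ) ≤ 2 * p := by exact_mod_cast h12
        have h14 : X ≤ 2 * p := by
          push_cast at h13
          have : (0 : ℝ) ≤ k := Nat.cast_nonneg k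
          linarith
        have h15 : X ^ (1 / 2 : ℝ) * X ^ (1 / 2 : ℝ) = X := by
          rw [← Real.rpow_add (by linarith)]
          norm_num
        have h16 : 4 < X ^ (1 / 2 : ℝ) := by
          have : (4 : ℝ) * 4 < X ^ (1 / 2 : ℝ) * X ^ (1 / 2 : ℝ) := by rw [h15]; linarith
          by_contra hcon
          push Not at hcon
          have h0 : 0 ≤ X ^ (1 / 2 : ℝ) := by positivity
          nlinarith
        nlinarith
    calc (VSet f M X F (X ^ (1 / 2 : ℝ))).ncard ≤
        (((NSet f M X F).image (fun n : ℕ => (n : ℤ)) : Finset ℤ) : Set ℤ).ncard :=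
          Set.ncard_le_ncard e1 (Finset.finite_toSet _)
      _ = ((NSet f M X F).image (fun n : ℕ => (n : ℤ))).card := Set.ncard_coe_finset _
      _ ≤ (NSet f M X F).card := Finset.card_image_le
  exact_mod_cast this

/-- **Frequency of large values of the error term.** -/
theorem error_freq (f : ℤ[X]) (hd : 0 < f.natDegree) :
    ∃ c : ℝ, 0 < c ∧ ∃ T₀ X₀ : ℝ, ∀ X : ℝ, X₀ ≤ X → ∀ T : ℝ, T₀ ≤ T → T ≤ Real.log X →
      ∀ M : ℕ, X ≤ M → ∀ κ : ℝ, 0 ≤ κ → X * Real.exp (-T) / 2 ≤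
        (((Icc M (M + ⌊X⌋₊)).filter (fun N : ℕ => c * κ * (Real.log X / Real.log M) * Real.log T ≤
          |(PF f N : ℝ) - κ * ∫ t in (2 : ℝ)..N, 1 / Real.log t|)).card : ℝ) := by
  obtain ⟨c, hc, T₀, X₀, h⟩ := nonprime_runs f hd
  refine ⟨c / 8, by positivity, max T₀ (Real.exp (1 / c)), max X₀ 3, fun X hX T hT hTX M hM κ hκ => ?_⟩
  have hX3 : 3 ≤ X := (le_max_right _ _).trans hX
  have hX1 : 1 ≤ X := by linarith
  have hlX : 1 < Real.log X := by
    rw [Real.lt_log_iff_exp_lt (by linarith)]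
    linarith [Real.exp_one_lt_d9]
  have hTe : Real.exp (1 / c) ≤ T := (le_max_right _ _).trans hT
  have hT0 : 0 < T := lt_of_lt_of_le (Real.exp_pos _) hTe
  have hlT : 1 / c ≤ Real.log T := by
    rw [Real.le_log_iff_exp_le hT0]
    exact hTe
  have hlT0 : 0 < Real.log T := lt_of_lt_of_le (by positivity) hlT
  refine le_trans ?_ (le_refl _)
  have h1 := h X ((le_max_left _ _).trans hX) T ((le_max_left _ _).trans hT) hTX M hM
  set F := c * (Real.log X * Real.log T) with hF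
  have hF1 : 1 ≤ F := by
    have e1 : 1 ≤ c * Real.log T := by
      have := mul_le_mul_of_nonneg_left hlT hc.le
      rwa [mul_one_div_cancel hc.ne'] at this
    calc (1 : ℝ) ≤ c * Real.log T := e1
      _ ≤ Real.log X * (c * Real.log T) := by nlinarith
      _ = F := by rw [hF]; ring
  set K : ℕ := ⌊F⌋₊ with hK
  have hK1 : (K : ℝ) ≤ F := Nat.floor_le (by linarith)
  have hK2 : F < K + 1 := Nat.lt_floor_add_one F
  have hK3 : F ≤ 2 * K := by
    have : 1 ≤ K := Nat.le_floor (by exact_mod_cast hF1)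
    have : (1 : ℝ) ≤ K := by exact_mod_cast this
    linarith
  set G : Finset ℕ := (Icc M (M + ⌊X⌋₊)).filter (fun N : ℕ => c / 8 * κ * (Real.log X / Real.log M) *
    Real.log T ≤ |(PF f N : ℝ) - κ * ∫ t in (2 : ℝ)..N, 1 / Real.log t|) with hG
  have hM3 : (3 : ℝ) ≤ M := hX3.trans hM
  have hlM : 0 < Real.log M := Real.log_pos (by linarith)
  have hcov : ∀ n ∈ NSet f M X F, n ∈ G ∨ n + K ∈ G := by
    intro n hn
    rw [NSet, Finset.mem_filter, Finset.mem_Icc] at hn
    obtain ⟨⟨hn1, hn2⟩, hn3, hn4⟩ := hn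
    have hn1' : (M : ℝ) ≤ n := by exact_mod_cast hn1
    have hn5 : n + K ≤ M + ⌊X⌋₊ := by
      have h2 : ((n + K : ℕ) : ℝ) - M ≤ X := by push_cast; linarith
      have h3 : n + K - M ≤ ⌊X⌋₊ := by
        apply Nat.le_floor
        rw [Nat.cast_sub (by omega)]
        exact h2
      omega
    have hP : PF f (n + K) = PF f n := by
      apply PF_eq_of_gap f (by omega)
      intro m hm1 hm2
      have := hn4 (m - n) (by omega) (by
        have h2 : m - n ≤ K := by omega
        have h3 : ((m - n : ℕ) : ℝ) ≤ K := by exact_mod_cast h2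
        linarith)
      rwa [show n + (m - n) = m by omega] at this
    have hb2 : ((n + K : ℕ) : ℝ) ≤ (M : ℝ) ^ 2 := by
      push_cast
      nlinarith
    have hb3 : Real.log ((n + K : ℕ) : ℝ) ≤ 2 * Real.log M := by
      have h2 := Real.log_le_log (by push_cast; linarith) hb2
      rw [Real.log_pow] at h2
      exact_mod_cast h2
    have hb4 : 0 < Real.log ((n + K : ℕ) : ℝ) := Real.log_pos (by push_cast; linarith)
    have hL := L_sub (a := ((n : ℕ) : ℝ)) (b := ((n + K : ℕ) : ℝ)) (by linarith) (by push_cast; linarith)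
    have hL2 : F / (4 * Real.log M) ≤ (∫ t in (2 : ℝ)..((n + K : ℕ) : ℝ), 1 / Real.log t) -
        ∫ t in (2 : ℝ)..(n : ℝ), 1 / Real.log t := by
      refine le_trans ?_ hL
      rw [div_le_div_iff₀ (by positivity) hb4]
      push_cast
      push_cast at hb3
      have e1 : 0 ≤ F := by linarith
      have e2 : F * Real.log ((n : ℝ) + K) ≤ F * (2 * Real.log M) := mul_le_mul_of_nonneg_left hb3 e1
      have e3 : F * (2 * Real.log M) ≤ 2 * K * (2 * Real.log M) :=
        mul_le_mul_of_nonneg_right hK3 (by positivity)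
      nlinarith
    have htar : c / 8 * κ * (Real.log X / Real.log M) * Real.log T = κ * (F / (4 * Real.log M)) / 2 := by
      rw [hF]; field_simp; ring
    have hdiff : κ * (F / (4 * Real.log M)) ≤
        ((PF f n : ℝ) - κ * ∫ t in (2 : ℝ)..(n : ℝ), 1 / Real.log t) -
        ((PF f (n + K) : ℝ) - κ * ∫ t in (2 : ℝ)..((n + K : ℕ) : ℝ), 1 / Real.log t) := by
      rw [hP]
      nlinarith [mul_le_mul_of_nonneg_left hL2 hκ]
    rw [hG, Finset.mem_filter, Finset.mem_filter, Finset.mem_Icc, Finset.mem_Icc]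
    by_cases hcase : c / 8 * κ * (Real.log X / Real.log M) * Real.log T ≤
        |(PF f (n + K) : ℝ) - κ * ∫ t in (2 : ℝ)..((n + K : ℕ) : ℝ), 1 / Real.log t|
    · exact Or.inr ⟨⟨by omega, hn5⟩, hcase⟩
    · refine Or.inl ⟨⟨hn1, hn2⟩, ?_⟩
      push Not at hcase
      have h2 := neg_abs_le ((PF f (n + K) : ℝ) - κ * ∫ t in (2 : ℝ)..((n + K : ℕ) : ℝ), 1 / Real.log t)
      have h3 := le_abs_self ((PF f n : ℝ) - κ * ∫ t in (2 : ℝ)..(n : ℝ), 1 / Real.log t)
      linarith
  have hcard : (NSet f M X F).card ≤ 2 * G.card := by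
    have e1 : NSet f M X F ⊆ G ∪ (G.image (fun m => m - K)) := by
      intro n hn
      rw [Finset.mem_union, Finset.mem_image]
      rcases hcov n hn with h2 | h2
      · exact Or.inl h2
      · exact Or.inr ⟨n + K, h2, by omega⟩
    calc (NSet f M X F).card ≤ (G ∪ (G.image (fun m => m - K))).card := Finset.card_le_card e1
      _ ≤ G.card + (G.image (fun m => m - K)).card := Finset.card_union_le _ _
      _ ≤ G.card + G.card := by
          have := Finset.card_image_le (s := G) (f := fun m => m - K)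
          omega
      _ = 2 * G.card := by ring
  have hcard' : ((NSet f M X F).card : ℝ) ≤ 2 * G.card := by exact_mod_cast hcard
  linarith

end Pool.Agent.N737.GV
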